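import Pool.Agent.QGB.Ode

/-!
# A priori bounds

For `φ w = w log w` and `1 < A < exp ((d+1)/2)` a positive solution on `[0,s₁]` satisfies
`exp (-s₁²/4) ≤ w ≤ exp ((d+1)/2)`.
-/

namespace QGB

open Set Filter Topology MeasureTheory intervalIntegral

/-- the nonlinearity -/
noncomputable def phi (w : ℝ) : ℝ := w * Real.log w

theorem continuous_phi : Continuous phi := Real.continuous_mul_log

theorem pow_mul_avg (d : ℕ) (φ w : ℝ → ℝ) (s : ℝ) :
    s ^ (d + 1) * avg d φ w s = ∫ r in (0 : ℝ)..s, r ^ d * φ (w r) := by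
  have h := intervalIntegral.mul_integral_comp_mul_right (a := 0) (b := 1)
    (f := fun r => r ^ d * φ (w r)) s
  simp only [zero_mul, one_mul] at h
  rw [← h]
  have h2 : ∫ x in (0 : ℝ)..1, (x * s) ^ d * φ (w (x * s)) =
      s ^ d * ∫ x in (0 : ℝ)..1, x ^ d * φ (w (x * s)) := by
    rw [← intervalIntegral.integral_const_mul]
    congr 1
    funext x
    rw [mul_pow]
    ring
  rw [h2]
  simp only [avg]
  ring

theorem hasDerivAt_avg {d : ℕ} {φ w : ℝ → ℝ} (hφ : Continuous φ) (hw : Continuous w) {s : ℝ}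
    (hs : 0 < s) :
    HasDerivAt (avg d φ w) ((φ (w s) - (d + 1) * avg d φ w s) / s) s := by
  have hc : Continuous fun r => r ^ d * φ (w r) := by fun_prop
  have h1 : HasDerivAt (fun s => ∫ r in (0 : ℝ)..s, r ^ d * φ (w r)) (s ^ d * φ (w s)) s :=
    intervalIntegral.integral_hasDerivAt_right (hc.intervalIntegrable _ _)
      (hc.stronglyMeasurableAtFilter _ _) hc.continuousAt
  have h2 : HasDerivAt (fun s : ℝ => s ^ (d + 1)) ((d + 1 : ℕ) * s ^ d) s := by
    simpa using hasDerivAt_pow (d + 1) s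
  have h3 := h1.div h2 (pow_pos hs _).ne'
  have h4 : (fun s => (∫ r in (0 : ℝ)..s, r ^ d * φ (w r)) / s ^ (d + 1)) =ᶠ[𝓝 s]
      avg d φ w := by
    filter_upwards [lt_mem_nhds hs] with r hr
    have hr0 : r ^ (d + 1) ≠ 0 := (pow_pos hr _).ne'
    rw [← pow_mul_avg]
    field_simp
  have h5 : (s ^ d * φ (w s) * s ^ (d + 1) -
      (∫ r in (0 : ℝ)..s, r ^ d * φ (w r)) * ((d + 1 : ℕ) * s ^ d)) / (s ^ (d + 1)) ^ 2 =
      (φ (w s) - (d + 1) * avg d φ w s) / s := by
    rw [← pow_mul_avg]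
    have hs0 : s ≠ 0 := hs.ne'
    have : (s : ℝ) ^ (d + 1) = s ^ d * s := pow_succ s d
    push_cast
    rw [this]
    field_simp
  rw [h5] at h3
  exact h3.congr_of_eventuallyEq h4.symm

theorem avg_zero (d : ℕ) (φ w : ℝ → ℝ) : avg d φ w 0 = φ (w 0) / (d + 1) := by
  simp only [avg, mul_zero]
  rw [intervalIntegral.integral_mul_const, integral_pow]
  simp
  ring

/-- the potential -/
noncomputable def pot (w : ℝ) : ℝ := w ^ 2 * Real.log w / 2 - w ^ 2 / 4

theorem hasDerivAt_pot {w : ℝ} (hw : 0 < w) : HasDerivAt pot (phi w) w := by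
  have h1 := ((((hasDerivAt_pow 2 w).mul (Real.hasDerivAt_log hw.ne')).div_const 2)).sub
    ((hasDerivAt_pow 2 w).div_const 4)
  have h2 : ((2 : ℕ) * w ^ (2 - 1) * Real.log w + w ^ 2 * w⁻¹) / 2 - (2 : ℕ) * w ^ (2 - 1) / 4 =
      phi w := by
    have hw0 := hw.ne'
    simp only [phi]
    field_simp
    ring
  rw [h2] at h1
  exact h1

theorem pot_lt {x y : ℝ} (hx : 0 < x) (hxy : x < y) (hy : y ≤ 1) : pot y < pot x := by
  obtain ⟨ξ, hξ, h⟩ := exists_hasDerivAt_eq_slope pot phi hxy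
    (fun z hz => (hasDerivAt_pot (hx.trans_le hz.1)).continuousAt.continuousWithinAt)
    (fun z hz => hasDerivAt_pot (hx.trans hz.1))
  have hξ0 : 0 < ξ := hx.trans hξ.1
  have h1 : phi ξ < 0 :=
    mul_neg_of_pos_of_neg hξ0 (Real.log_neg hξ0 (hξ.2.trans_le hy))
  have h2 : 0 < y - x := sub_pos.2 hxy
  rw [h, div_lt_iff₀ h2] at h1
  linarith

/-- a positive solution of the integral equation on `[0,s₁]` -/
structure IsSol (d : ℕ) (A s₁ : ℝ) (w : ℝ → ℝ) : Prop where
  cont : Continuous w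
  pos : ∀ s ∈ Icc 0 s₁, 0 < w s
  eq : ∀ s ∈ Icc 0 s₁, w s = A - op d phi w s

theorem IsSol.hasDerivAt {d : ℕ} {A s₁ : ℝ} {w : ℝ → ℝ} (h : IsSol d A s₁ w) {s : ℝ}
    (hs : s ∈ Ioo 0 s₁) : HasDerivAt w (-(s * avg d phi w s)) s := by
  have h1 := (hasDerivAt_op (d := d) continuous_phi h.cont s).const_sub A
  refine h1.congr_of_eventuallyEq ?_
  filter_upwards [Ioo_mem_nhds hs.1 hs.2] with r hr
  exact h.eq r ⟨hr.1.le, hr.2.le⟩

theorem IsSol.mono {d : ℕ} {A s₁ s₂ : ℝ} {w : ℝ → ℝ} (h : IsSol d A s₁ w) (h2 : s₂ ≤ s₁) :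
    IsSol d A s₂ w :=
  ⟨h.cont, fun s hs => h.pos s ⟨hs.1, hs.2.trans h2⟩, fun s hs => h.eq s ⟨hs.1, hs.2.trans h2⟩⟩

theorem IsSol.zero {d : ℕ} {A s₁ : ℝ} {w : ℝ → ℝ} (h : IsSol d A s₁ w) (hs : 0 ≤ s₁) :
    w 0 = A := by
  have := h.eq 0 ⟨le_rfl, hs⟩
  simpa [op] using this

/-- the auxiliary function `M` -/
theorem aux_M {d : ℕ} {A s₁ : ℝ} {w : ℝ → ℝ} (h : IsSol d A s₁ w) (hs₁ : 0 ≤ s₁)
    (hg : ∀ s ∈ Ioo 0 s₁, 0 ≤ avg d phi w s ∧ 2 * avg d phi w s ≤ w s) :
    ∀ s ∈ Icc 0 s₁, s ^ (d + 1) * (w s ^ 2 * Real.log (w s) - (d + 1) * avg d phi w s * w s +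
      s ^ 2 * avg d phi w s ^ 2) ≤ 0 := by
  set g := avg d phi w with hgdef
  have hgc : Continuous g := continuous_avg continuous_phi h.cont
  set M : ℝ → ℝ := fun s => s ^ (d + 1) * (w s ^ 2 * Real.log (w s) - (d + 1) * g s * w s +
      s ^ 2 * g s ^ 2) with hM
  have hMc : ContinuousOn M (Icc 0 s₁) := by
    have hlog : ContinuousOn (fun s => Real.log (w s)) (Icc 0 s₁) :=
      h.cont.continuousOn.log (fun s hs => (h.pos s hs).ne')
    have hwc := h.cont.continuousOn (s := Icc 0 s₁)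
    have hgc' := hgc.continuousOn (s := Icc 0 s₁)
    fun_prop
  have hanti : AntitoneOn M (Icc 0 s₁) := by
    apply antitoneOn_of_hasDerivWithinAt_nonpos (convex_Icc 0 s₁) hMc
      (f' := fun s => s ^ (d + 2) * g s * (2 * g s - w s))
    · intro s hs
      rw [interior_Icc] at hs
      have hs0 : 0 < s := hs.1
      have hw0 : 0 < w s := h.pos s ⟨hs.1.le, hs.2.le⟩
      have h1 := h.hasDerivAt hs
      have h2 : HasDerivAt g ((phi (w s) - (d + 1) * g s) / s) s :=
        hasDerivAt_avg continuous_phi h.cont hs0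
      have h3 := h1.log hw0.ne'
      have h4 := (((h1.pow 2).mul h3).sub ((h2.const_mul ((d : ℝ) + 1)).mul h1)).add
        ((hasDerivAt_pow 2 s).mul (h2.pow 2))
      have h5 := (hasDerivAt_pow (d + 1) s).mul h4
      refine (h5.hasDerivWithinAt).congr_deriv ?_
      simp only [phi, ← hgdef]
      have : (s : ℝ) ^ (d + 1) = s ^ d * s := pow_succ s d
      have h6 : (s : ℝ) ^ (d + 2) = s ^ d * s ^ 2 := pow_add s d 2
      push_cast
      simp only [Pi.mul_apply, Pi.sub_apply, Pi.add_apply, Pi.pow_apply, this, h6]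
      field_simp
      ring
    · intro s hs
      rw [interior_Icc] at hs
      obtain ⟨h1, h2⟩ := hg s hs
      have h3 : 0 ≤ s ^ (d + 2) * g s := mul_nonneg (pow_nonneg hs.1.le _) h1
      nlinarith
  intro s hs
  have h0 : M 0 = 0 := by simp [hM]
  have := hanti ⟨le_rfl, hs₁⟩ hs hs.1
  rw [h0] at this
  exact this

theorem ratio_antitone {d : ℕ} {A s₁ : ℝ} {w : ℝ → ℝ} (h : IsSol d A s₁ w) (hs₁ : 0 ≤ s₁)
    (hg : ∀ s ∈ Ioo 0 s₁, 0 ≤ avg d phi w s ∧ 2 * avg d phi w s ≤ w s) :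
    AntitoneOn (fun s => avg d phi w s / w s) (Icc 0 s₁) := by
  have hM := aux_M h hs₁ hg
  set g := avg d phi w with hgdef
  have hgc : Continuous g := continuous_avg continuous_phi h.cont
  apply antitoneOn_of_hasDerivWithinAt_nonpos (convex_Icc 0 s₁)
    (hgc.continuousOn.div h.cont.continuousOn (fun s hs => (h.pos s hs).ne'))
    (f' := fun s => (w s ^ 2 * Real.log (w s) - (d + 1) * g s * w s + s ^ 2 * g s ^ 2) /
      (s * w s ^ 2))
  · intro s hs
    rw [interior_Icc] at hs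
    have hs0 : 0 < s := hs.1
    have hw0 : 0 < w s := h.pos s ⟨hs.1.le, hs.2.le⟩
    have h1 := h.hasDerivAt hs
    have h2 : HasDerivAt g ((phi (w s) - (d + 1) * g s) / s) s :=
      hasDerivAt_avg continuous_phi h.cont hs0
    refine (h2.div h1 hw0.ne').hasDerivWithinAt.congr_deriv ?_
    simp only [phi, ← hgdef]
    field_simp
    ring
  · intro s hs
    rw [interior_Icc] at hs
    have hw0 : 0 < w s := h.pos s ⟨hs.1.le, hs.2.le⟩
    have h1 := hM s ⟨hs.1.le, hs.2.le⟩
    have h2 : 0 < s ^ (d + 1) := pow_pos hs.1 _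
    have h3 : w s ^ 2 * Real.log (w s) - (d + 1) * g s * w s + s ^ 2 * g s ^ 2 ≤ 0 := by
      by_contra hcon
      push Not at hcon
      have := mul_pos h2 hcon
      linarith
    exact div_nonpos_of_nonpos_of_nonneg h3 (mul_pos hs.1 (pow_pos hw0 2)).le

theorem two_g_lt {d : ℕ} {A s₁ : ℝ} {w : ℝ → ℝ} (h : IsSol d A s₁ w) (hs₁ : 0 ≤ s₁)
    (hA0 : 0 < A) (hA : Real.log A < (d + 1) / 2)
    (hg : ∀ s ∈ Icc 0 s₁, 0 ≤ avg d phi w s) :
    ∀ s ∈ Icc 0 s₁, 2 * avg d phi w s < w s := by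
  by_contra hcon
  push Not at hcon
  obtain ⟨s', hs', hbad'⟩ := hcon
  have hgc : Continuous (avg d phi w) := continuous_avg continuous_phi h.cont
  set Z : Set ℝ := Icc 0 s₁ ∩ {s | w s ≤ 2 * avg d phi w s} with hZ
  have hZc : IsCompact Z :=
    isCompact_Icc.inter_right (isClosed_le h.cont (continuous_const.mul hgc))
  have hZn : Z.Nonempty := ⟨s', hs', hbad'⟩
  have h3 : sInf Z ∈ Z := hZc.sInf_mem hZn
  set s₃ := sInf Z with hs₃
  have hlt : ∀ s ∈ Icc 0 s₁, s < s₃ → 2 * avg d phi w s < w s := by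
    intro s hs hlt
    by_contra hc
    push Not at hc
    exact absurd (csInf_le hZc.bddBelow ⟨hs, hc⟩) (not_le.2 hlt)
  have h0 : 2 * avg d phi w 0 < w 0 := by
    rw [avg_zero, h.zero hs₁, phi]
    have hd : (0 : ℝ) < d + 1 := by positivity
    rw [← mul_div_assoc, div_lt_iff₀ hd]
    nlinarith
  have hsol := h.mono h3.1.2
  have hr := ratio_antitone hsol h3.1.1 (fun s hs => ⟨hg s ⟨hs.1.le, hs.2.le.trans h3.1.2⟩,
    (hlt s ⟨hs.1.le, hs.2.le.trans h3.1.2⟩ hs.2).le⟩)
  have h4 := hr ⟨le_rfl, h3.1.1⟩ ⟨h3.1.1, le_rfl⟩ h3.1.1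
  simp only at h4
  have hw3 : 0 < w s₃ := h.pos _ h3.1
  have hw0 : 0 < w 0 := h.pos 0 ⟨le_rfl, hs₁⟩
  have h5 : avg d phi w 0 / w 0 < 1 / 2 := by
    rw [div_lt_iff₀ hw0]; linarith
  have h6 : (1 : ℝ) / 2 ≤ avg d phi w s₃ / w s₃ := by
    rw [le_div_iff₀ hw3]
    have : w s₃ ≤ 2 * avg d phi w s₃ := h3.2
    linarith
  linarith

/-- first phase: as long as `w` decreases -/
theorem phase_one {d : ℕ} {A s₁ : ℝ} {w : ℝ → ℝ} (h : IsSol d A s₁ w) (hs₁ : 0 ≤ s₁)
    (hA1 : 1 < A) (hA : Real.log A < (d + 1) / 2)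
    (hg : ∀ s ∈ Icc 0 s₁, 0 ≤ avg d phi w s) :
    ∀ s ∈ Icc 0 s₁, Real.exp (-(s ^ 2 / 4)) ≤ w s ∧ w s ≤ A := by
  have hA0 : 0 < A := by linarith
  have h2g := two_g_lt h hs₁ hA0 hA hg
  intro s hs
  constructor
  · have hmono : MonotoneOn (fun s => Real.log (w s) + s ^ 2 / 4) (Icc 0 s₁) := by
      apply monotoneOn_of_hasDerivWithinAt_nonneg (convex_Icc 0 s₁)
        (f' := fun s => -(s * avg d phi w s) / w s + s / 2)
      · have hlog : ContinuousOn (fun s => Real.log (w s)) (Icc 0 s₁) :=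
          h.cont.continuousOn.log (fun s hs => (h.pos s hs).ne')
        fun_prop
      · intro r hr
        rw [interior_Icc] at hr
        have hw0 : 0 < w r := h.pos r ⟨hr.1.le, hr.2.le⟩
        have h1 := ((h.hasDerivAt hr).log hw0.ne').add ((hasDerivAt_pow 2 r).div_const 4)
        refine h1.hasDerivWithinAt.congr_deriv ?_
        push_cast
        ring
      · intro r hr
        rw [interior_Icc] at hr
        have hw0 : 0 < w r := h.pos r ⟨hr.1.le, hr.2.le⟩
        have h1 := h2g r ⟨hr.1.le, hr.2.le⟩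
        have h2 : r * avg d phi w r / w r ≤ r / 2 := by
          rw [div_le_iff₀ hw0]
          nlinarith [hr.1]
        have h3 : -(r * avg d phi w r) / w r = -(r * avg d phi w r / w r) := by ring
        rw [h3]
        linarith
    have h1 := hmono ⟨le_rfl, hs₁⟩ hs hs.1
    simp only [h.zero hs₁] at h1
    have h2 : 0 < Real.log A := Real.log_pos hA1
    have h3 : -(s ^ 2 / 4) ≤ Real.log (w s) := by nlinarith
    exact (Real.le_log_iff_exp_le (h.pos s hs)).1 h3
  · have hanti : AntitoneOn w (Icc 0 s₁) := by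
      apply antitoneOn_of_hasDerivWithinAt_nonpos (convex_Icc 0 s₁) h.cont.continuousOn
        (f' := fun s => -(s * avg d phi w s))
      · intro r hr
        rw [interior_Icc] at hr
        exact (h.hasDerivAt hr).hasDerivWithinAt
      · intro r hr
        rw [interior_Icc] at hr
        have := mul_nonneg hr.1.le (hg r ⟨hr.1.le, hr.2.le⟩)
        linarith
    have := hanti ⟨le_rfl, hs₁⟩ hs hs.1
    rwa [h.zero hs₁] at this

theorem energy_antitone {d : ℕ} {A s₁ : ℝ} {w : ℝ → ℝ} (h : IsSol d A s₁ w) :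
    AntitoneOn (fun s => (s * avg d phi w s) ^ 2 / 2 + pot (w s)) (Icc 0 s₁) := by
  set g := avg d phi w with hgdef
  have hgc : Continuous g := continuous_avg continuous_phi h.cont
  apply antitoneOn_of_hasDerivWithinAt_nonpos (convex_Icc 0 s₁)
    (f' := fun s => -(d * s * g s ^ 2))
  · have hlog : ContinuousOn (fun s => Real.log (w s)) (Icc 0 s₁) :=
      h.cont.continuousOn.log (fun s hs => (h.pos s hs).ne')
    have hwc := h.cont.continuousOn (s := Icc 0 s₁)
    have hgc' := hgc.continuousOn (s := Icc 0 s₁)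
    unfold pot
    fun_prop
  · intro s hs
    rw [interior_Icc] at hs
    have hs0 : 0 < s := hs.1
    have hw0 : 0 < w s := h.pos s ⟨hs.1.le, hs.2.le⟩
    have h1 := h.hasDerivAt hs
    have h2 : HasDerivAt g ((phi (w s) - (d + 1) * g s) / s) s :=
      hasDerivAt_avg continuous_phi h.cont hs0
    have h3 := ((((hasDerivAt_id s).mul h2).pow 2).div_const 2).add
      ((hasDerivAt_pot hw0).comp s h1)
    refine h3.hasDerivWithinAt.congr_deriv ?_
    simp only [phi, ← hgdef, id]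
    push_cast
    field_simp
    simp
    ring
  · intro s hs
    rw [interior_Icc] at hs
    have : 0 ≤ (d : ℝ) * s * g s ^ 2 := by
      have := hs.1.le
      positivity
    linarith

/-- the a priori bound -/
theorem apriori {d : ℕ} {A s₁ : ℝ} {w : ℝ → ℝ} (h : IsSol d A s₁ w)
    (hA1 : 1 < A) (hA : Real.log A < (d + 1) / 2) :
    ∀ s ∈ Icc 0 s₁, Real.exp (-(s₁ ^ 2 / 4)) ≤ w s ∧ w s ≤ Real.exp ((d + 1) / 2) := by
  intro s hs
  have hs₁ : 0 ≤ s₁ := hs.1.trans hs.2
  have hA0 : 0 < A := by linarith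
  have hAexp : A ≤ Real.exp ((d + 1) / 2) := (Real.log_le_iff_le_exp hA0).1 hA.le
  have hexp : ∀ r ∈ Icc 0 s₁, Real.exp (-(s₁ ^ 2 / 4)) ≤ Real.exp (-(r ^ 2 / 4)) := by
    intro r hr
    apply Real.exp_le_exp.2
    have := pow_le_pow_left₀ hr.1 hr.2 2
    linarith
  have hgc : Continuous (avg d phi w) := continuous_avg continuous_phi h.cont
  by_cases hcase : ∀ r ∈ Icc 0 s, 0 ≤ avg d phi w r
  · have h1 := phase_one (h.mono hs.2) hs.1 hA1 hA hcase s ⟨hs.1, le_rfl⟩
    exact ⟨(hexp s hs).trans h1.1, h1.2.trans hAexp⟩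
  · push Not at hcase
    obtain ⟨r', hr', hbad'⟩ := hcase
    set Z : Set ℝ := Icc 0 s ∩ {r | avg d phi w r ≤ 0} with hZ
    have hZc : IsCompact Z := isCompact_Icc.inter_right (isClosed_le hgc continuous_const)
    have hZn : Z.Nonempty := ⟨r', hr', hbad'.le⟩
    have h3 : sInf Z ∈ Z := hZc.sInf_mem hZn
    set c := sInf Z with hc
    have hpos : ∀ r ∈ Icc 0 s, r < c → 0 < avg d phi w r := by
      intro r hr hlt
      by_contra hcn
      push Not at hcn
      exact absurd (csInf_le hZc.bddBelow ⟨hr, hcn⟩) (not_le.2 hlt)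
    have hg0 : 0 < avg d phi w 0 := by
      rw [avg_zero, h.zero hs₁, phi]
      have := Real.log_pos hA1
      positivity
    have hc0 : 0 < c := by
      rcases h3.1.1.eq_or_lt with h4 | h4
      · exfalso
        have h5 : avg d phi w c ≤ 0 := h3.2
        rw [← h4] at h5
        linarith
      · exact h4
    -- at `c`
    have hgc0 : avg d phi w c = 0 := by
      apply le_antisymm h3.2
      have hcl : c ∈ closure (Ioo 0 c) := by
        rw [closure_Ioo hc0.ne]
        exact ⟨hc0.le, le_rfl⟩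
      have hsub : Ioo 0 c ⊆ {r | 0 ≤ avg d phi w r} := by
        intro r hr
        exact (hpos r ⟨hr.1.le, hr.2.le.trans h3.1.2⟩ hr.2).le
      exact closure_minimal hsub (isClosed_le continuous_const hgc) hcl
    have hgge : ∀ r ∈ Icc 0 c, 0 ≤ avg d phi w r := by
      intro r hr
      rcases hr.2.eq_or_lt with h4 | h4
      · rw [h4, hgc0]
      · exact (hpos r ⟨hr.1, hr.2.trans h3.1.2⟩ h4).le
    have hcs₁ : c ≤ s₁ := h3.1.2.trans hs.2
    have hsol := h.mono hcs₁
    have h1 := phase_one hsol hc0.le hA1 hA hgge c ⟨hc0.le, le_rfl⟩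
    have h2g := two_g_lt hsol hc0.le hA0 hA hgge
    have hM := aux_M hsol hc0.le (fun r hr => ⟨hgge r ⟨hr.1.le, hr.2.le⟩,
      (h2g r ⟨hr.1.le, hr.2.le⟩).le⟩) c ⟨hc0.le, le_rfl⟩
    have hwc : 0 < w c := h.pos c ⟨hc0.le, hcs₁⟩
    have hlogc : Real.log (w c) ≤ 0 := by
      rw [hgc0] at hM
      by_contra hcn
      push Not at hcn
      have : 0 < c ^ (d + 1) * (w c ^ 2 * Real.log (w c)) := by positivity
      simp only [mul_zero, zero_mul, sub_zero] at hM
      norm_num at hM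
      linarith
    have hwc1 : w c ≤ 1 := by
      by_contra hcn
      push Not at hcn
      have := Real.log_pos hcn
      linarith
    have hE := energy_antitone h ⟨hc0.le, hcs₁⟩ hs h3.1.2
    simp only [hgc0, mul_zero] at hE
    have hE2 : pot (w s) ≤ pot (w c) := by
      have : 0 ≤ (s * avg d phi w s) ^ 2 / 2 := by positivity
      norm_num at hE
      linarith
    have hws : 0 < w s := h.pos s hs
    constructor
    · have h5 : w c ≤ w s := by
        by_contra hcn
        push Not at hcn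
        have := pot_lt hws hcn hwc1
        linarith
      exact (hexp c ⟨hc0.le, hcs₁⟩).trans (h1.1.trans h5)
    · have h5 : pot (w c) < 0 := by
        simp only [pot]
        have h6 : 0 < w c ^ 2 := by positivity
        nlinarith
      have h6 : Real.log (w s) < 1 / 2 := by
        by_contra hcn
        push Not at hcn
        have h7 : 0 ≤ pot (w s) := by
          simp only [pot]
          have h8 : 0 < w s ^ 2 := by positivity
          nlinarith
        linarith
      have h7 : w s ≤ Real.exp (1 / 2) := (Real.log_le_iff_le_exp hws).1 h6.le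
      refine h7.trans (Real.exp_le_exp.2 ?_)
      have : (0 : ℝ) ≤ d := by positivity
      linarith

end QGB
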