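import Pool.Agent.QGB.Phase

/-!
# Counting

The number of `b` with `v(S;b) = -e` grows linearly with `S`.
-/

namespace QGB

open Set Filter Topology MeasureTheory intervalIntegral

/-- clamp of the initial value -/
noncomputable def clb (d : ℕ) (b : ℝ) : ℝ := max (1 / 5) (min b ((d + 1) / 2))

theorem fifth_le (d : ℕ) : (1 : ℝ) / 5 ≤ (d + 1) / 2 := by
  have : (0 : ℝ) ≤ d := by positivity
  linarith

theorem clb_mem (d : ℕ) (b : ℝ) : clb d b ∈ Icc (1 / 5 : ℝ) ((d + 1) / 2) :=
  clamp_mem (fifth_le d) b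

theorem clb_eq {d : ℕ} {b : ℝ} (hb : b ∈ Icc (1 / 5 : ℝ) ((d + 1) / 2)) : clb d b = b := by
  simp only [clb]
  rw [min_eq_left hb.2, max_eq_right hb.1]

theorem continuous_clb (d : ℕ) : Continuous (clb d) := by
  unfold clb
  fun_prop

theorem one_lt_exp_clb (d : ℕ) (b : ℝ) : 1 < Real.exp (clb d b) := by
  apply Real.one_lt_exp_iff.2
  linarith [(clb_mem d b).1]

theorem exp_clb_le (d : ℕ) (b : ℝ) : Real.exp (clb d b) ≤ Real.exp ((d + 1) / 2) :=
  Real.exp_le_exp.2 (clb_mem d b).2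

/-- the family with its continuous angle -/
theorem exists_angle_family (d : ℕ) {T : ℝ} (hT : 0 ≤ T) :
    ∃ W K : ℝ → ℝ → ℝ, (∀ b, IsSol d (Real.exp (clb d b)) T (W b)) ∧
      (∀ b, IsAng d T (W b) (K b)) ∧
      (∀ s, Continuous fun b => ang (K b) s) ∧
      (∀ s ∈ Icc 0 T, Continuous fun b => vv (W b) s) ∧
      ∀ s ∈ Icc 0 T, W ((d + 1) / 2) s = gauss d s := by
  obtain ⟨W, g, hW, hg, hsol, hgauss⟩ := exists_true_family d hT
  set cl : ℝ → ℝ := fun r => max 0 (min r T) with hcl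
  have hclc : Continuous cl := by fun_prop
  have hclm : ∀ r, cl r ∈ Icc 0 T := fun r => clamp_mem hT r
  have hcle : ∀ r ∈ Icc 0 T, cl r = r := fun r hr => by
    simp [hcl, min_eq_left hr.2, max_eq_right hr.1]
  have hs : ∀ b, IsSol d (Real.exp (clb d b)) T (W (Real.exp (clb d b))) :=
    fun b => (hsol _ (one_lt_exp_clb d b) (exp_clb_le d b)).1
  have hgs : ∀ b, ∀ s ∈ Icc 0 T, g (Real.exp (clb d b)) s =
      avg d phi (W (Real.exp (clb d b))) s :=
    fun b => (hsol _ (one_lt_exp_clb d b) (exp_clb_le d b)).2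
  have hcb := continuous_clb d
  -- the point (exp (clb b), cl s)
  have hpt : Continuous fun q : ℝ × ℝ => ((Real.exp (clb d q.1), cl q.2) : ℝ × ℝ) := by fun_prop
  have hWc : Continuous fun q : ℝ × ℝ => W (Real.exp (clb d q.1)) (cl q.2) := hW.comp hpt
  have hgc : Continuous fun q : ℝ × ℝ => g (Real.exp (clb d q.1)) (cl q.2) := hg.comp hpt
  have hWpos : ∀ q : ℝ × ℝ, 0 < W (Real.exp (clb d q.1)) (cl q.2) :=
    fun q => (hs q.1).pos _ (hclm q.2)
  have hvc : Continuous fun q : ℝ × ℝ => Real.log (W (Real.exp (clb d q.1)) (cl q.2)) :=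
    hWc.log (fun q => (hWpos q).ne')
  have hpc : Continuous fun q : ℝ × ℝ => -(g (Real.exp (clb d q.1)) (cl q.2)) /
      W (Real.exp (clb d q.1)) (cl q.2) := hgc.neg.div hWc (fun q => (hWpos q).ne')
  have hpeq : ∀ q : ℝ × ℝ, -(g (Real.exp (clb d q.1)) (cl q.2)) /
      W (Real.exp (clb d q.1)) (cl q.2) = pp d (W (Real.exp (clb d q.1))) (cl q.2) := by
    intro q
    rw [pp, hgs q.1 _ (hclm q.2)]
  have hK : Continuous fun q : ℝ × ℝ => kap d (cl q.2)
      (Real.log (W (Real.exp (clb d q.1)) (cl q.2)))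
      (-(g (Real.exp (clb d q.1)) (cl q.2)) / W (Real.exp (clb d q.1)) (cl q.2)) := by
    unfold kap
    apply Continuous.sub continuous_const
    apply Continuous.div
    · fun_prop
    · fun_prop
    · intro q
      rw [hpeq]
      exact ((hs q.1).rho_pos (one_lt_exp_clb d q.1) (hclm q.2)).ne'
  refine ⟨fun b => W (Real.exp (clb d b)), fun b s => kap d (cl s)
      (Real.log (W (Real.exp (clb d b)) (cl s)))
      (-(g (Real.exp (clb d b)) (cl s)) / W (Real.exp (clb d b)) (cl s)), hs, ?_, ?_, ?_, ?_⟩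
  · intro b
    refine ⟨?_, fun s hsT => ?_⟩
    · have : Continuous fun s : ℝ => ((b, s) : ℝ × ℝ) := by fun_prop
      exact hK.comp this
    · simp only
      rw [hpeq (b, s)]
      simp only [hcle s hsT, vv]
  · intro s
    unfold ang
    apply intervalIntegral.continuous_parametric_intervalIntegral_of_continuous'
    exact hK
  · intro s hsT
    have h1 : Continuous fun b : ℝ => ((b, s) : ℝ × ℝ) := by fun_prop
    have h2 := hvc.comp h1
    simp only [Function.comp_def, hcle s hsT] at h2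
    exact h2
  · intro s hsT
    simp only
    rw [clb_eq ⟨fifth_le d, le_rfl⟩]
    exact hgauss s hsT

/-- the counting theorem -/
theorem count (d n : ℕ) {S e : ℝ} (hS : 64 * (d + 1) * (4 * (n + 1) + 1) ≤ S)
    (he : |e| < 1 / 6) :
    ∃ (w : ℕ → ℝ → ℝ) (z : ℕ → ℝ),
      (∀ i < n, 0 < z i ∧ IsSol d (Real.exp (z i)) (S + 1) (w i) ∧ vv (w i) S = -e) ∧
      ∀ i j, i < j → j < n → z j < z i := by
  have hd0 : (0 : ℝ) ≤ d := by positivity
  have hn0 : (0 : ℝ) ≤ n := by positivity
  set m : ℕ := n + 1 with hm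
  have hmR : (m : ℝ) = n + 1 := by rw [hm]; push_cast; rfl
  have hm1 : (1 : ℝ) ≤ m := by rw [hmR]; linarith
  have hSm : 64 * (d + 1) * (4 * (m : ℝ) + 1) ≤ S := by rw [hmR]; exact hS
  have hS1 : 2 * d + 16 * m + 8 ≤ S := by nlinarith [mul_nonneg hd0 (by linarith : (0:ℝ) ≤ m)]
  have hS0 : 0 < S := by linarith
  have hT : 0 ≤ S + 1 := by linarith
  obtain ⟨W, K, hsol, hang, hθc, hvc, hgauss⟩ := exists_angle_family d hT
  have hST : S ∈ Icc 0 (S + 1) := ⟨hS0.le, by linarith⟩
  set θ : ℝ → ℝ := fun b => ang (K b) S with hθ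
  have hθc' : Continuous θ := hθc S
  have hA : ∀ b, 1 < Real.exp (clb d b) := one_lt_exp_clb d
  have hπ0 := Real.pi_pos
  have hπ4 : Real.pi < 4 := by linarith [Real.pi_lt_d2]
  -- small initial value
  have hθ1 : θ (1 / 5) ≤ -(m * Real.pi) := by
    have h1 : EE d (W (1 / 5)) 0 < 1 / 16 := by
      rw [EE, (hsol _).vv_zero hT, yy_zero, Real.log_exp, clb_eq ⟨le_rfl, fifth_le d⟩, HH]
      have := Real.add_one_le_exp (2 * (1 / 5))
      norm_num at this ⊢
      linarith
    set s₀ : ℝ := 2 * d + 1 with hs₀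
    have hs₀S : s₀ ≤ S := by linarith
    have h2 : EE d (W (1 / 5)) s₀ < 1 / 16 :=
      ((hsol _).EE_anti ⟨le_rfl, hT⟩ ⟨by positivity, by linarith⟩ (by positivity)).trans_lt h1
    have h3 := (hsol (1 / 5)).rotate (hA _) (hang _) (s₀ := s₀) (s := S) (by linarith)
      (by positivity) hs₀S (by linarith) h2
    have h4 := (hsol (1 / 5)).ang_nonpos (hA _) (hang _) s₀ ⟨by positivity, by linarith⟩
    have h5 : (m : ℝ) * Real.pi ≤ m * 4 := mul_le_mul_of_nonneg_left hπ4.le (by linarith)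
    show ang (K (1 / 5)) S ≤ _
    linarith
  -- large initial value
  have hθ2 : -Real.pi < θ ((d + 1) / 2) := by
    by_contra hcon
    push Not at hcon
    set b : ℝ := ((d : ℝ) + 1) / 2 with hb
    have h0 : ang (K b) 0 = 0 := by simp [ang]
    have h1 : -Real.pi ∈ (ang (K b)) '' (Icc 0 S) :=
      intermediate_value_Icc' hS0.le (continuous_ang (hang b).cont).continuousOn
        ⟨hcon, by rw [h0]; linarith⟩
    obtain ⟨s, hs, hsπ⟩ := h1
    have hsT : s ∈ Icc 0 (S + 1) := ⟨hs.1, by linarith [hs.2]⟩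
    obtain ⟨c, hc0, hv, hy⟩ := (hsol b).polar (hA b) (hang b) hsT
    rw [hsπ, Real.sin_neg, Real.sin_pi, neg_zero, mul_zero] at hy
    have h2 : ∀ r ∈ Icc 0 (S + 1), pp d (W b) r = -(1 / 2) := by
      intro r hr
      have h3 : avg d phi (W b) r = avg d phi (gauss d) r := by
        unfold avg
        apply intervalIntegral.integral_congr
        intro x hx
        rw [uIcc_of_le zero_le_one] at hx
        have h4 : x * r ∈ Icc 0 (S + 1) := by
          constructor
          · exact mul_nonneg hx.1 hr.1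
          · calc x * r ≤ 1 * r := mul_le_mul_of_nonneg_right hx.2 hr.1
              _ ≤ S + 1 := by rw [one_mul]; exact hr.2
        simp only [hgauss _ h4]
      have h4 : gauss d r ≠ 0 := (Real.exp_pos _).ne'
      rw [pp, h3, avg_gauss, hgauss r hr]
      field_simp
    have h3 : yy d (W b) s = s * pp d (W b) s := rfl
    rw [h3, h2 s hsT] at hy
    have h4 : s = 0 := by linarith
    rw [h4, h0] at hsπ
    linarith
  -- the values `β j`
  set B : ℕ → Set ℝ := fun j => Icc (1 / 5 : ℝ) ((d + 1) / 2) ∩ {b | θ b ≤ -(j * Real.pi)}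
    with hB
  have hBc : ∀ j, IsCompact (B j) := fun j =>
    isCompact_Icc.inter_right (isClosed_le hθc' continuous_const)
  have hBn : ∀ j ≤ m, (B j).Nonempty := by
    intro j hj
    refine ⟨1 / 5, ⟨le_rfl, fifth_le d⟩, ?_⟩
    have h1 : (j : ℝ) * Real.pi ≤ m * Real.pi :=
      mul_le_mul_of_nonneg_right (by exact_mod_cast hj) hπ0.le
    show θ (1 / 5) ≤ _
    linarith
  set β : ℕ → ℝ := fun j => sSup (B j) with hβ
  have hβm : ∀ j ≤ m, β j ∈ B j := fun j hj => (hBc j).sSup_mem (hBn j hj)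
  have hβθ : ∀ j, 1 ≤ j → j ≤ m → θ (β j) = -(j * Real.pi) := by
    intro j hj1 hjm
    have h1 := hβm j hjm
    have h2 : θ (β j) ≤ -(j * Real.pi) := h1.2
    have h3 : -(j * Real.pi) ≤ θ ((d + 1) / 2) := by
      have h4 : (1 : ℝ) ≤ j := by exact_mod_cast hj1
      nlinarith
    obtain ⟨b, hb, hbθ⟩ := intermediate_value_Icc h1.1.2 hθc'.continuousOn ⟨h2, h3⟩
    have h4 : b ∈ B j := ⟨⟨h1.1.1.trans hb.1, hb.2⟩, hbθ.le⟩
    have h5 : b ≤ β j := le_csSup (hBc j).bddAbove h4
    have h6 : b = β j := le_antisymm h5 hb.1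
    rw [← h6]
    exact hbθ
  have hβlt : ∀ j, 1 ≤ j → j + 1 ≤ m → β (j + 1) < β j := by
    intro j hj1 hjm
    have h1 : β (j + 1) ≤ β j := by
      have h2 := hβm (j + 1) hjm
      apply le_csSup (hBc j).bddAbove
      refine ⟨h2.1, ?_⟩
      have h3 : θ (β (j + 1)) ≤ -((j + 1 : ℕ) * Real.pi) := h2.2
      push_cast at h3
      show θ (β (j + 1)) ≤ _
      linarith
    refine lt_of_le_of_ne h1 ?_
    intro h2
    have h3 := hβθ (j + 1) (by omega) hjm
    rw [h2, hβθ j hj1 (by omega)] at h3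
    push_cast at h3
    linarith
  -- size of `v` at `β j`
  have hcosj : ∀ j : ℕ, Real.cos (-(j * Real.pi)) = (-1) ^ j := by
    intro j
    rw [Real.cos_neg, Real.cos_nat_mul_pi]
  have hsinj : ∀ j : ℕ, Real.sin (-(j * Real.pi)) = 0 := by
    intro j
    rw [Real.sin_neg, Real.sin_nat_mul_pi, neg_zero]
  have hval : ∀ j, 1 ≤ j → j ≤ m → 1 / 6 < (-1) ^ j * vv (W (β j)) S := by
    intro j hj1 hjm
    have hθj := hβθ j hj1 hjm
    obtain ⟨c, hc0, hv, hy⟩ := (hsol (β j)).polar (hA _) (hang _) hST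
    have h1 : ang (K (β j)) S = -(j * Real.pi) := hθj
    rw [h1, hcosj] at hv
    rw [h1, hsinj, mul_zero] at hy
    have hjm' : (j : ℝ) ≤ m := by exact_mod_cast hjm
    set C : ℝ := 16 * m + 4 with hC
    have hC0 : 0 < C := by positivity
    have hSC : 2 * d ≤ S - C := by rw [hC]; linarith
    have hSC0 : 0 < S - C := by rw [hC]; linarith
    have h2 : 1 / 16 ≤ EE d (W (β j)) (S - C) := by
      by_contra hcon
      push Not at hcon
      have h3 := (hsol (β j)).rotate (hA _) (hang _) (s₀ := S - C) (s := S) hSC hSC0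
        (by linarith) (by linarith) hcon
      have h4 := (hsol (β j)).ang_nonpos (hA _) (hang _) (S - C) ⟨hSC0.le, by linarith⟩
      rw [h1] at h3
      have h5 : (j : ℝ) * Real.pi ≤ m * 4 :=
        mul_le_mul hjm' hπ4.le hπ0.le (by linarith)
      rw [hC] at h3 h4
      linarith
    have h3 : 1 / 32 ≤ EE d (W (β j)) S := by
      have h4 := (hsol (β j)).EE_mono ⟨hSC0.le, by linarith⟩ hST (by linarith : S - C ≤ S)
      simp only at h4
      have h5 : S ^ (2 * d) * (1 / 2) ≤ (S - C) ^ (2 * d) := by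
        have h6 : S - C = S * (1 + -(C / S)) := by field_simp; ring
        rw [h6, mul_pow]
        apply mul_le_mul_of_nonneg_left _ (pow_nonneg hS0.le _)
        have h7 : C / S ≤ 1 := by
          rw [div_le_one hS0]; linarith
        have h8 := one_add_mul_le_pow (a := -(C / S)) (by linarith) (2 * d)
        refine le_trans ?_ h8
        push_cast
        have h9 : 4 * d * C ≤ S := by
          rw [hC]
          nlinarith
        have h10 : 2 * d * (C / S) ≤ 1 / 2 := by
          rw [← mul_div_assoc, div_le_div_iff₀ hS0 (by norm_num)]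
          linarith
        linarith
      have h6 : 0 < S ^ (2 * d) := pow_pos hS0 _
      have h7 : S ^ (2 * d) * (1 / 32) ≤ S ^ (2 * d) * EE d (W (β j)) S := by
        calc S ^ (2 * d) * (1 / 32) = S ^ (2 * d) * (1 / 2) * (1 / 16) := by ring
          _ ≤ (S - C) ^ (2 * d) * (1 / 16) := mul_le_mul_of_nonneg_right h5 (by norm_num)
          _ ≤ (S - C) ^ (2 * d) * EE d (W (β j)) (S - C) :=
              mul_le_mul_of_nonneg_left h2 (pow_nonneg hSC0.le _)
          _ ≤ _ := h4
      exact le_of_mul_le_mul_left h7 h6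
    have h4 : EE d (W (β j)) S = HH (vv (W (β j)) S) 0 := by rw [EE, hy]
    rw [h4] at h3
    have h5 : (-1 : ℝ) ^ j * vv (W (β j)) S = c := by
      rw [hv]
      have : (-1 : ℝ) ^ j * (-1) ^ j = 1 := by rw [← mul_pow]; norm_num
      linear_combination c * this
    rw [h5]
    have h6 : vv (W (β j)) S ^ 2 = c ^ 2 := by
      rw [hv, mul_pow, ← pow_mul]
      simp
    by_contra hcon
    push Not at hcon
    have h7 : vv (W (β j)) S ≤ 1 / 2 := by
      have h8 : vv (W (β j)) S ^ 2 ≤ (1 / 6) ^ 2 := by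
        rw [h6]
        exact pow_le_pow_left₀ hc0.le hcon 2
      have h9 := abs_le_of_sq_le_sq h8 (by norm_num)
      linarith [(abs_le.1 h9).2]
    have h8 := HH_zero_le h7
    rw [h6] at h8
    nlinarith
  -- zeros
  have hzero : ∀ i, i < n → ∃ z, β (i + 2) < z ∧ z < β (i + 1) ∧ vv (W z) S = -e := by
    intro i hi
    have h1 := hval (i + 1) (by omega) (by omega)
    have h2 := hval (i + 2) (by omega) (by omega)
    have h3 := hβlt (i + 1) (by omega) (by omega)
    set Φ : ℝ → ℝ := fun b => (-1 : ℝ) ^ i * (vv (W b) S + e) with hΦ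
    have hΦc : Continuous Φ := continuous_const.mul ((hvc S hST).add continuous_const)
    obtain ⟨he1, he2⟩ := abs_lt.1 he
    have hsgn : (-1 : ℝ) ^ i = 1 ∨ (-1 : ℝ) ^ i = -1 := neg_one_pow_eq_or ℝ i
    have h4 : Φ (β (i + 1)) < 0 := by
      rw [pow_succ] at h1
      simp only [hΦ]
      rcases hsgn with h | h <;> rw [h] at h1 ⊢ <;> linarith
    have h5 : 0 < Φ (β (i + 2)) := by
      rw [pow_add] at h2
      simp only [hΦ]
      rcases hsgn with h | h <;> rw [h] at h2 ⊢ <;> linarith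
    obtain ⟨z, hz, hz0⟩ := intermediate_value_Ioo' (f := Φ) h3.le hΦc.continuousOn ⟨h4, h5⟩
    refine ⟨z, hz.1, hz.2, ?_⟩
    have h6 : (-1 : ℝ) ^ i ≠ 0 := pow_ne_zero _ (by norm_num)
    have h7 := (mul_eq_zero.1 hz0).resolve_left h6
    linarith
  choose! z hz1 hz2 hz3 using hzero
  refine ⟨fun i => W (z i), z, ?_, ?_⟩
  · intro i hi
    have h1 := (hβm (i + 2) (by omega)).1
    have h2 := (hβm (i + 1) (by omega)).1
    have h3 : z i ∈ Icc (1 / 5 : ℝ) ((d + 1) / 2) :=
      ⟨h1.1.trans (hz1 i hi).le, (hz2 i hi).le.trans h2.2⟩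
    refine ⟨by linarith [h3.1], ?_, hz3 i hi⟩
    have h4 := hsol (z i)
    rwa [clb_eq h3] at h4
  · intro i j hij hj
    have hanti : ∀ a b : ℕ, 1 ≤ a → a ≤ b → b ≤ m → β b ≤ β a := by
      intro a b ha hab hbm
      induction b, hab using Nat.le_induction with
      | base => exact le_rfl
      | succ k hk ih => exact (hβlt k (by omega) hbm).le.trans (ih (by omega))
    have h1 := hz2 j hj
    have h2 := hz1 i (hij.trans hj)
    have h3 := hanti (i + 2) (j + 1) (by omega) (by omega) (by omega)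
    linarith

end QGB
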