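import Pool.Agent.QGB.Weak

/-!
# A `C¹` function vanishing on the sphere is in `H¹₀` of the ball
-/

open Set Filter Topology InnerProductSpace Metric MeasureTheory
open scoped ENNReal

namespace QGB

section

variable {N : ℕ}

/-- the cutoff profile -/
noncomputable def chi (t : ℝ) : ℝ := Real.smoothTransition (t - 1)

theorem chi_contDiff : ContDiff ℝ 1 chi := by
  have h1 : ContDiff ℝ 1 Real.smoothTransition := Real.smoothTransition.contDiff
  have h2 : ContDiff ℝ 1 fun t : ℝ => t - 1 := contDiff_id.sub contDiff_const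
  exact h1.comp h2

theorem chi_zero {t : ℝ} (ht : t ≤ 1) : chi t = 0 :=
  Real.smoothTransition.zero_of_nonpos (by linarith)

theorem chi_one {t : ℝ} (ht : 2 ≤ t) : chi t = 1 :=
  Real.smoothTransition.one_of_one_le (by linarith)

theorem chi_mem (t : ℝ) : 0 ≤ chi t ∧ chi t ≤ 1 :=
  ⟨Real.smoothTransition.nonneg _, Real.smoothTransition.le_one _⟩

theorem deriv_chi_zero {t : ℝ} (ht : t < 1) : deriv chi t = 0 := by
  have h : chi =ᶠ[𝓝 t] fun _ => 0 := by
    filter_upwards [Iio_mem_nhds ht] with s hs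
    exact chi_zero (le_of_lt hs)
  rw [h.deriv_eq]
  simp

theorem deriv_chi_zero' {t : ℝ} (ht : 2 < t) : deriv chi t = 0 := by
  have h : chi =ᶠ[𝓝 t] fun _ => 1 := by
    filter_upwards [Ioi_mem_nhds ht] with s hs
    exact chi_one (le_of_lt hs)
  rw [h.deriv_eq]
  simp

theorem deriv_chi_bound : ∃ C : ℝ, 0 ≤ C ∧ ∀ t, |deriv chi t| ≤ C := by
  have hc : Continuous (deriv chi) := chi_contDiff.continuous_deriv (by norm_num)
  obtain ⟨C, hC⟩ := (isCompact_Icc (a := (1 : ℝ)) (b := 2)).exists_bound_of_continuousOn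
    hc.continuousOn
  refine ⟨|C|, abs_nonneg _, fun t => ?_⟩
  by_cases h1 : t < 1
  · rw [deriv_chi_zero h1]; simp
  by_cases h2 : 2 < t
  · rw [deriv_chi_zero' h2]; simp
  · exact (hC t ⟨not_lt.1 h1, not_lt.1 h2⟩).trans (le_abs_self _)

/-- the cutoff -/
noncomputable def eta (x₀ : EuclideanSpace ℝ (Fin N)) (R a : ℝ) (x : EuclideanSpace ℝ (Fin N)) : ℝ :=
  chi (a * (R ^ 2 - ‖x - x₀‖ ^ 2))

theorem hasFDerivAt_quad (x₀ : EuclideanSpace ℝ (Fin N)) (R a : ℝ)
    (x : EuclideanSpace ℝ (Fin N)) :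
    HasFDerivAt (fun x => a * (R ^ 2 - ‖x - x₀‖ ^ 2)) ((-(2 * a)) • innerSL ℝ (x - x₀)) x := by
  have h1 : HasFDerivAt (fun x : EuclideanSpace ℝ (Fin N) => ‖x‖ ^ 2) (2 • (innerSL ℝ) (x - x₀))
      (x - x₀) := (hasStrictFDerivAt_norm_sq (x - x₀)).hasFDerivAt
  have h3 : HasFDerivAt (fun x : EuclideanSpace ℝ (Fin N) => x - x₀)
      (ContinuousLinearMap.id ℝ _) x := (hasFDerivAt_id x).sub_const x₀
  have h4 := ((h1.comp x h3).const_sub (R ^ 2)).const_mul a
  refine h4.congr_fderiv ?_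
  ext y
  simp
  ring

theorem eta_contDiff (x₀ : EuclideanSpace ℝ (Fin N)) (R a : ℝ) : ContDiff ℝ 1 (eta x₀ R a) := by
  have h2 : ContDiff ℝ 1 fun x : EuclideanSpace ℝ (Fin N) => a * (R ^ 2 - ‖x - x₀‖ ^ 2) :=
    contDiff_const.mul (contDiff_const.sub ((contDiff_id.sub contDiff_const).norm_sq ℝ))
  exact chi_contDiff.comp h2

theorem eta_hasFDerivAt (x₀ : EuclideanSpace ℝ (Fin N)) (R a : ℝ)
    (x : EuclideanSpace ℝ (Fin N)) :
    HasFDerivAt (eta x₀ R a) (deriv chi (a * (R ^ 2 - ‖x - x₀‖ ^ 2)) •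
      ((-(2 * a)) • innerSL ℝ (x - x₀))) x := by
  have h1 : HasDerivAt chi (deriv chi (a * (R ^ 2 - ‖x - x₀‖ ^ 2)))
      (a * (R ^ 2 - ‖x - x₀‖ ^ 2)) :=
    (chi_contDiff.differentiable (by norm_num)).differentiableAt.hasDerivAt
  exact h1.comp_hasFDerivAt x (hasFDerivAt_quad x₀ R a x)

/-- a `C¹` function vanishing on the sphere is in `H¹₀` -/
theorem isH10_of_boundary {x₀ : EuclideanSpace ℝ (Fin N)} {R ρ : ℝ} (hR0 : 0 < R) (hR : R < ρ)
    {u : EuclideanSpace ℝ (Fin N) → ℝ} (hu : ContDiffOn ℝ 1 u (ball x₀ ρ))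
    (hb : ∀ x ∈ sphere x₀ R, u x = 0) : IsH10 (ball x₀ R) u (gradient u) := by
  have hO : IsOpen (ball x₀ ρ) := isOpen_ball
  have hsub : closedBall x₀ R ⊆ ball x₀ ρ := closedBall_subset_ball hR
  have hsub' : ball x₀ R ⊆ ball x₀ ρ := ball_subset_ball hR.le
  have hK : IsCompact (closedBall x₀ R) := isCompact_closedBall x₀ R
  have huc : ContinuousOn u (ball x₀ ρ) := hu.continuousOn
  have hu' : ContinuousOn (fderiv ℝ u) (ball x₀ ρ) := hu.continuousOn_fderiv_of_isOpen hO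
    (by norm_num)
  have hud : ∀ x ∈ ball x₀ ρ, DifferentiableAt ℝ u x := fun x hx =>
    (hu.contDiffAt (hO.mem_nhds hx)).differentiableAt (by norm_num)
  have hgc : ContinuousOn (gradient u) (ball x₀ ρ) :=
    (toDual ℝ (EuclideanSpace ℝ (Fin N))).symm.continuous.comp_continuousOn hu'
  obtain ⟨M₁, hM₁⟩ := hK.exists_bound_of_continuousOn (huc.mono hsub)
  obtain ⟨M₂, hM₂⟩ := hK.exists_bound_of_continuousOn (hu'.mono hsub)
  set M := max |M₁| |M₂| with hM
  have hM0 : 0 ≤ M := (abs_nonneg M₁).trans (le_max_left _ _)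
  have hMu : ∀ x ∈ closedBall x₀ R, |u x| ≤ M := fun x hx =>
    (hM₁ x hx).trans ((le_abs_self _).trans (le_max_left _ _))
  have hMg : ∀ x ∈ closedBall x₀ R, ‖fderiv ℝ u x‖ ≤ M := fun x hx =>
    (hM₂ x hx).trans ((le_abs_self _).trans (le_max_right _ _))
  -- the linear bound
  have hlin : ∀ x ∈ ball x₀ R, x ≠ x₀ → |u x| ≤ M * (R - ‖x - x₀‖) := by
    intro x hx hxx
    have hz : 0 < ‖x - x₀‖ := norm_pos_iff.2 (sub_ne_zero.2 hxx)
    have hzR : ‖x - x₀‖ < R := by rwa [← dist_eq_norm]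
    set y := x₀ + (R / ‖x - x₀‖) • (x - x₀) with hy
    have hyx₀ : y - x₀ = (R / ‖x - x₀‖) • (x - x₀) := by rw [hy]; simp
    have hyS : y ∈ sphere x₀ R := by
      rw [mem_sphere, dist_eq_norm, hyx₀, norm_smul, norm_div, norm_norm, Real.norm_eq_abs,
        abs_of_pos hR0]
      field_simp
    have hyx : y - x = ((R - ‖x - x₀‖) / ‖x - x₀‖) • (x - x₀) := by
      have h1 : y - x = (y - x₀) - (x - x₀) := by abel
      rw [h1, hyx₀, sub_div, sub_smul, div_self hz.ne', one_smul]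
    have h1 := (convex_closedBall x₀ R).norm_image_sub_le_of_norm_fderiv_le
      (fun z hz => hud z (hsub hz)) hMg (ball_subset_closedBall hx) (sphere_subset_closedBall hyS)
    rw [hb y hyS, zero_sub, norm_neg, Real.norm_eq_abs, hyx, norm_smul, norm_div, norm_norm,
      Real.norm_eq_abs, abs_of_pos (by linarith : 0 < R - ‖x - x₀‖)] at h1
    have h2 : (R - ‖x - x₀‖) / ‖x - x₀‖ * ‖x - x₀‖ = R - ‖x - x₀‖ := by field_simp
    rwa [h2] at h1
  obtain ⟨C₁, hC₁0, hC₁⟩ := deriv_chi_bound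
  have hfin : IsFiniteMeasure (volume.restrict (ball x₀ R)) := by
    refine ⟨?_⟩
    rw [Measure.restrict_apply_univ]
    exact measure_ball_lt_top
  have hae : ∀ {P : EuclideanSpace ℝ (Fin N) → Prop}, (∀ x ∈ ball x₀ R, P x) →
      ∀ᵐ x ∂(volume.restrict (ball x₀ R)), P x :=
    fun h => (ae_restrict_mem measurableSet_ball).mono h
  have hum : AEStronglyMeasurable u (volume.restrict (ball x₀ R)) :=
    (huc.mono hsub').aestronglyMeasurable measurableSet_ball
  have hgm : AEStronglyMeasurable (gradient u) (volume.restrict (ball x₀ R)) :=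
    (hgc.mono hsub').aestronglyMeasurable measurableSet_ball
  have hgn : ∀ (f : EuclideanSpace ℝ (Fin N) → ℝ) x, ‖gradient f x‖ = ‖fderiv ℝ f x‖ := by
    intro f x
    rw [gradient, LinearIsometryEquiv.norm_map]
  -- the approximations
  set φ : ℕ → EuclideanSpace ℝ (Fin N) → ℝ := fun n x => eta x₀ R (n + 1) x * u x with hφ
  have hφzero : ∀ (n : ℕ) x, ((n : ℝ) + 1) * (R ^ 2 - ‖x - x₀‖ ^ 2) ≤ 1 → φ n x = 0 := by
    intro n x hx
    simp [hφ, eta, chi_zero hx]
  have hSn : ∀ n : ℕ, IsClosed {x : EuclideanSpace ℝ (Fin N) |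
      1 ≤ ((n : ℝ) + 1) * (R ^ 2 - ‖x - x₀‖ ^ 2)} := by
    intro n
    apply isClosed_le continuous_const
    fun_prop
  have hSsub : ∀ n : ℕ, {x : EuclideanSpace ℝ (Fin N) |
      1 ≤ ((n : ℝ) + 1) * (R ^ 2 - ‖x - x₀‖ ^ 2)} ⊆ ball x₀ R := by
    intro n x hx
    have h1 : (0 : ℝ) < n + 1 := by positivity
    have h2 : 1 ≤ ((n : ℝ) + 1) * (R ^ 2 - ‖x - x₀‖ ^ 2) := hx
    have h3 : 0 < R ^ 2 - ‖x - x₀‖ ^ 2 := by
      by_contra h
      push Not at h
      have := mul_nonpos_of_nonneg_of_nonpos h1.le h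
      linarith
    rw [mem_ball, dist_eq_norm]
    exact lt_of_pow_lt_pow_left₀ 2 hR0.le (by linarith)
  have hts : ∀ n, tsupport (φ n) ⊆ ball x₀ R := by
    intro n
    refine (closure_minimal ?_ (hSn n)).trans (hSsub n)
    intro x hx
    by_contra h
    exact hx (hφzero n x (not_le.1 h).le)
  have hηd : ∀ n : ℕ, ∀ x, DifferentiableAt ℝ (eta x₀ R ((n : ℝ) + 1)) x := fun n x =>
    ((eta_contDiff x₀ R _).differentiable (by norm_num)).differentiableAt
  have hφd : ∀ (n : ℕ), ∀ x ∈ ball x₀ R, fderiv ℝ (φ n) x - fderiv ℝ u x =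
      (eta x₀ R ((n : ℝ) + 1) x - 1) • fderiv ℝ u x + u x •
        (deriv chi (((n : ℝ) + 1) * (R ^ 2 - ‖x - x₀‖ ^ 2)) •
          ((-(2 * ((n : ℝ) + 1))) • innerSL ℝ (x - x₀))) := by
    intro n x hx
    have h1 := (eta_hasFDerivAt x₀ R ((n : ℝ) + 1) x).mul (hud x (hsub' hx)).hasFDerivAt
    have h2 : HasFDerivAt (φ n) (eta x₀ R ((n : ℝ) + 1) x • fderiv ℝ u x + u x •
        (deriv chi (((n : ℝ) + 1) * (R ^ 2 - ‖x - x₀‖ ^ 2)) •
          ((-(2 * ((n : ℝ) + 1))) • innerSL ℝ (x - x₀)))) x := h1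
    rw [h2.fderiv, sub_smul, one_smul]
    abel
  have hφm : ∀ n, ContDiff ℝ 1 (φ n) := by
    intro n
    rw [contDiff_iff_contDiffAt]
    intro x
    by_cases hx : x ∈ ball x₀ ρ
    · exact (eta_contDiff x₀ R _).contDiffAt.mul (hu.contDiffAt (hO.mem_nhds hx))
    · have hx' : x ∉ tsupport (φ n) := fun h => hx (hsub' (hts n h))
      have h1 : φ n =ᶠ[𝓝 x] fun _ => 0 := notMem_tsupport_iff_eventuallyEq.1 hx'
      exact (contDiffAt_const (c := (0 : ℝ))).congr_of_eventuallyEq h1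
  have hφgm : ∀ n, Continuous (gradient (φ n)) := fun n =>
    (toDual ℝ (EuclideanSpace ℝ (Fin N))).symm.continuous.comp
      ((hφm n).continuous_fderiv (by norm_num))
  -- eventually the cutoff is one
  have hev : ∀ x ∈ ball x₀ R, ∀ᶠ n : ℕ in atTop, 2 < ((n : ℝ) + 1) * (R ^ 2 - ‖x - x₀‖ ^ 2) := by
    intro x hx
    have hzR : ‖x - x₀‖ < R := by rwa [← dist_eq_norm]
    have h1 : 0 < R ^ 2 - ‖x - x₀‖ ^ 2 := by
      have := pow_lt_pow_left₀ hzR (norm_nonneg _) (two_ne_zero)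
      linarith
    have h2 : Tendsto (fun n : ℕ => ((n : ℝ) + 1) * (R ^ 2 - ‖x - x₀‖ ^ 2)) atTop atTop := by
      apply Tendsto.atTop_mul_const h1
      exact tendsto_atTop_add_const_right _ _ tendsto_natCast_atTop_atTop
    exact h2.eventually_gt_atTop 2
  refine ⟨MemLp.of_bound hum M (hae fun x hx => hMu x (ball_subset_closedBall hx)),
    MemLp.of_bound hgm M (hae fun x hx => ?_), φ, fun n => ⟨hφm n, ?_, hts n⟩, ?_, ?_⟩
  · rw [hgn]
    exact hMg x (ball_subset_closedBall hx)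
  · exact HasCompactSupport.of_support_subset_isCompact hK
      ((subset_tsupport _).trans ((hts n).trans ball_subset_closedBall))
  · apply tendsto_eLpNorm_zero (C := M)
    · intro n
      exact (hφm n).continuous.aestronglyMeasurable.sub hum
    · intro n
      apply hae
      intro x hx
      have h1 : φ n x - u x = (eta x₀ R ((n : ℝ) + 1) x - 1) * u x := by
        simp only [hφ]; ring
      rw [h1, norm_mul, Real.norm_eq_abs, Real.norm_eq_abs]
      have h2 := chi_mem (((n : ℝ) + 1) * (R ^ 2 - ‖x - x₀‖ ^ 2))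
      have h3 : |eta x₀ R ((n : ℝ) + 1) x - 1| ≤ 1 := by
        rw [abs_le, eta]
        constructor <;> linarith [h2.1, h2.2]
      calc |eta x₀ R ((n : ℝ) + 1) x - 1| * |u x| ≤ 1 * M :=
            mul_le_mul h3 (hMu x (ball_subset_closedBall hx)) (abs_nonneg _) zero_le_one
        _ = M := one_mul _
    · apply hae
      intro x hx
      apply tendsto_const_nhds.congr'
      filter_upwards [hev x hx] with n hn
      simp [hφ, eta, chi_one hn.le]
  · apply tendsto_eLpNorm_zero (C := M + 4 * M * C₁)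
    · intro n
      exact (hφgm n).aestronglyMeasurable.sub hgm
    · intro n
      apply hae
      intro x hx
      have hxc := ball_subset_closedBall hx
      have h0 : ‖gradient (φ n) x - gradient u x‖ = ‖fderiv ℝ (φ n) x - fderiv ℝ u x‖ := by
        rw [gradient, gradient, ← map_sub, LinearIsometryEquiv.norm_map]
      rw [h0, hφd n x hx]
      set t : ℝ := ((n : ℝ) + 1) * (R ^ 2 - ‖x - x₀‖ ^ 2) with ht
      have h2 := chi_mem t
      have h3 : |eta x₀ R ((n : ℝ) + 1) x - 1| ≤ 1 := by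
        rw [abs_le, eta]
        constructor <;> linarith [h2.1, h2.2]
      have h4 : ‖(eta x₀ R ((n : ℝ) + 1) x - 1) • fderiv ℝ u x‖ ≤ M := by
        rw [norm_smul, Real.norm_eq_abs]
        calc |eta x₀ R ((n : ℝ) + 1) x - 1| * ‖fderiv ℝ u x‖ ≤ 1 * M :=
              mul_le_mul h3 (hMg x hxc) (norm_nonneg _) zero_le_one
          _ = M := one_mul _
      have h5 : ‖u x • (deriv chi t • ((-(2 * ((n : ℝ) + 1))) • innerSL ℝ (x - x₀)))‖ ≤
          4 * M * C₁ := by
        by_cases ht2 : 2 < t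
        · rw [deriv_chi_zero' ht2]
          simp
          positivity
        push Not at ht2
        by_cases hxx : x = x₀
        · subst hxx
          simp
          positivity
        have hzR : ‖x - x₀‖ < R := by rwa [← dist_eq_norm]
        have hn0 : (0 : ℝ) < n + 1 := by positivity
        rw [norm_smul, norm_smul, norm_smul, innerSL_apply_norm, Real.norm_eq_abs,
          Real.norm_eq_abs, Real.norm_eq_abs, abs_neg,
          abs_of_pos (show (0 : ℝ) < 2 * ((n : ℝ) + 1) by positivity)]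
        have h6 : |u x| ≤ M * (R - ‖x - x₀‖) := hlin x hx hxx
        have h7 : (R - ‖x - x₀‖) * R * ((n : ℝ) + 1) ≤ 2 := by
          have h8 : (R - ‖x - x₀‖) * R ≤ R ^ 2 - ‖x - x₀‖ ^ 2 := by
            nlinarith [norm_nonneg (x - x₀)]
          calc (R - ‖x - x₀‖) * R * ((n : ℝ) + 1) ≤ (R ^ 2 - ‖x - x₀‖ ^ 2) * ((n : ℝ) + 1) :=
                mul_le_mul_of_nonneg_right h8 hn0.le
            _ = t := by rw [ht]; ring
            _ ≤ 2 := ht2
        have h9 : |deriv chi t| ≤ C₁ := hC₁ t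
        have hd0 : 0 ≤ R - ‖x - x₀‖ := by linarith
        calc |u x| * (|deriv chi t| * (2 * ((n : ℝ) + 1) * ‖x - x₀‖))
            ≤ (M * (R - ‖x - x₀‖)) * (C₁ * (2 * ((n : ℝ) + 1) * R)) := by
              gcongr
          _ = 2 * M * C₁ * ((R - ‖x - x₀‖) * R * ((n : ℝ) + 1)) := by ring
          _ ≤ 2 * M * C₁ * 2 := mul_le_mul_of_nonneg_left h7 (by positivity)
          _ = 4 * M * C₁ := by ring
      exact (norm_add_le _ _).trans (add_le_add h4 h5)
    · apply hae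
      intro x hx
      apply tendsto_const_nhds.congr'
      filter_upwards [hev x hx] with n hn
      have h0 : ‖gradient (φ n) x - gradient u x‖ = ‖fderiv ℝ (φ n) x - fderiv ℝ u x‖ := by
        rw [gradient, gradient, ← map_sub, LinearIsometryEquiv.norm_map]
      have h1 : ‖gradient (φ n) x - gradient u x‖ = 0 := by
        rw [h0, hφd n x hx, deriv_chi_zero' hn, eta, chi_one hn.le]
        simp
      exact (norm_eq_zero.1 h1).symm

end

end QGB
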