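import Mathlib

/-!
# Weak solutions of a Dirichlet problem with quadratic gradient term
-/

open MeasureTheory Filter Topology

namespace QGB

/-- `IsH10 Ω v g`: the function `v` belongs to `H¹₀(Ω)` and `g` is its weak gradient, that is, `v`
and `g` are in `L²(Ω)` and there are `C¹` functions `φ n` with compact support in `Ω` such that
`φ n → v` and `∇ (φ n) → g` in `L²(Ω)`. -/
def IsH10 {N : ℕ} (Ω : Set (EuclideanSpace ℝ (Fin N))) (v : EuclideanSpace ℝ (Fin N) → ℝ)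
    (g : EuclideanSpace ℝ (Fin N) → EuclideanSpace ℝ (Fin N)) : Prop :=
  MemLp v 2 (volume.restrict Ω) ∧ MemLp g 2 (volume.restrict Ω) ∧
    ∃ φ : ℕ → EuclideanSpace ℝ (Fin N) → ℝ,
      (∀ n, ContDiff ℝ 1 (φ n) ∧ HasCompactSupport (φ n) ∧ tsupport (φ n) ⊆ Ω) ∧
      Tendsto (fun n => eLpNorm (fun x => φ n x - v x) 2 (volume.restrict Ω)) atTop (𝓝 0) ∧
      Tendsto (fun n => eLpNorm (fun x => gradient (φ n) x - g x) 2 (volume.restrict Ω))
        atTop (𝓝 0)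

/-- `IsSolution Ω lam c μ h u`: the function `u` is a weak solution of
`-Δu = lam c(x) u + μ(x) |∇u|² + h(x)`, `u ∈ H¹₀(Ω) ∩ L^∞(Ω)`: it belongs to this space and, with
`g = ∇u`, the identity `∫_Ω g·∇v = ∫_Ω (lam c u + μ |g|² + h) v` holds (with an integrable
right-hand side) for all `v ∈ H¹₀(Ω) ∩ L^∞(Ω)`. -/
def IsSolution {N : ℕ} (Ω : Set (EuclideanSpace ℝ (Fin N))) (lam : ℝ)
    (c μ h : EuclideanSpace ℝ (Fin N) → ℝ) (u : EuclideanSpace ℝ (Fin N) → ℝ) : Prop :=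
  ∃ g : EuclideanSpace ℝ (Fin N) → EuclideanSpace ℝ (Fin N), IsH10 Ω u g ∧
    (∃ M : ℝ, ∀ᵐ x ∂(volume.restrict Ω), |u x| ≤ M) ∧
    ∀ (v : EuclideanSpace ℝ (Fin N) → ℝ) (gv : EuclideanSpace ℝ (Fin N) → EuclideanSpace ℝ (Fin N)),
      IsH10 Ω v gv → (∃ M : ℝ, ∀ᵐ x ∂(volume.restrict Ω), |v x| ≤ M) →
      Integrable (fun x => (lam * c x * u x + μ x * ‖g x‖ ^ 2 + h x) * v x) (volume.restrict Ω) ∧
      ∫ x in Ω, inner ℝ (g x) (gv x) =
        ∫ x in Ω, (lam * c x * u x + μ x * ‖g x‖ ^ 2 + h x) * v x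

end QGB
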