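import Pool.Agent.QGB.Apriori

/-!
# The family of solutions

For `1 < A ≤ exp ((d+1)/2)` a positive solution on `[0,T]`, depending continuously on `A`; for
`A = exp ((d+1)/2)` it is `exp ((d+1)/2 - s²/4)`.
-/

namespace QGB

open Set Filter Topology MeasureTheory intervalIntegral

/-- the truncated nonlinearity -/
noncomputable def tphi (a b : ℝ) (w : ℝ) : ℝ := phi (max a (min w b))

theorem continuous_tphi (a b : ℝ) : Continuous (tphi a b) := by
  have h : Continuous fun w : ℝ => max a (min w b) := by fun_prop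
  exact continuous_phi.comp h

theorem tphi_eq {a b w : ℝ} (h1 : a ≤ w) (h2 : w ≤ b) : tphi a b w = phi w := by
  simp [tphi, min_eq_left h2, max_eq_right h1]

theorem clamp_mem {a b : ℝ} (hab : a ≤ b) (w : ℝ) : max a (min w b) ∈ Icc a b :=
  ⟨le_max_left _ _, max_le hab (min_le_right _ _)⟩

theorem clamp_lip (a b y y' : ℝ) : |max a (min y b) - max a (min y' b)| ≤ |y - y'| := by
  rw [max_comm a, max_comm a]
  refine (abs_max_sub_max_le_abs _ _ _).trans ?_
  rw [min_comm y, min_comm y']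
  have h := abs_min_sub_min_le_max b y b y'
  simpa using h

theorem tphi_lip {a b : ℝ} (ha : 0 < a) (hab : a ≤ b) :
    ∃ L, 0 ≤ L ∧ ∀ y y', |tphi a b y - tphi a b y'| ≤ L * |y - y'| := by
  refine ⟨|Real.log a| + |Real.log b| + 1, by positivity, fun y y' => ?_⟩
  have h1 : ∀ x ∈ Icc a b, HasDerivWithinAt phi (Real.log x + 1) (Icc a b) x := by
    intro x hx
    have hx0 : x ≠ 0 := (ha.trans_le hx.1).ne'
    exact (Real.hasDerivAt_mul_log hx0).hasDerivWithinAt
  have h2 : ∀ x ∈ Icc a b, ‖Real.log x + 1‖ ≤ |Real.log a| + |Real.log b| + 1 := by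
    intro x hx
    have hx0 : 0 < x := ha.trans_le hx.1
    have h3 := Real.log_le_log ha hx.1
    have h4 := Real.log_le_log hx0 hx.2
    rw [Real.norm_eq_abs, abs_le]
    constructor
    · have := neg_abs_le (Real.log a)
      have := abs_nonneg (Real.log b)
      linarith
    · have := le_abs_self (Real.log b)
      have := abs_nonneg (Real.log a)
      linarith
  have h3 := (convex_Icc a b).norm_image_sub_le_of_norm_hasDerivWithin_le h1 h2
    (clamp_mem hab y') (clamp_mem hab y)
  rw [Real.norm_eq_abs, Real.norm_eq_abs] at h3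
  exact h3.trans (mul_le_mul_of_nonneg_left (clamp_lip a b y y') (by positivity))

theorem tphi_bdd {a b : ℝ} (hab : a ≤ b) : ∃ B, ∀ y, |tphi a b y| ≤ B := by
  obtain ⟨B, hB⟩ := (isCompact_Icc (a := a) (b := b)).exists_bound_of_continuousOn
    continuous_phi.continuousOn
  exact ⟨B, fun y => hB _ (clamp_mem hab y)⟩

theorem continuous_uncurry {W : ℝ → ℝ → ℝ} {l : ℝ} (hc : ∀ A, Continuous (W A))
    (hl : ∀ A A' s, |W A s - W A' s| ≤ 2 * Real.exp (l * s) * |A - A'|) :
    Continuous fun q : ℝ × ℝ => W q.1 q.2 := by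
  rw [continuous_iff_continuousAt]
  rintro ⟨A₀, s₀⟩
  rw [ContinuousAt, tendsto_iff_dist_tendsto_zero]
  have h1 : Tendsto (fun q : ℝ × ℝ => 2 * Real.exp (l * q.2) * |q.1 - A₀| +
      |W A₀ q.2 - W A₀ s₀|) (𝓝 (A₀, s₀)) (𝓝 0) := by
    have h2 : Continuous (fun q : ℝ × ℝ => 2 * Real.exp (l * q.2) * |q.1 - A₀| +
        |W A₀ q.2 - W A₀ s₀|) := by
      have h3 : Continuous fun q : ℝ × ℝ => W A₀ q.2 := (hc A₀).comp continuous_snd
      fun_prop
    have h := h2.tendsto (A₀, s₀)
    simpa using h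
  refine squeeze_zero (fun _ => dist_nonneg) (fun q => ?_) h1
  rw [Real.dist_eq]
  calc |W q.1 q.2 - W A₀ s₀| = |(W q.1 q.2 - W A₀ q.2) + (W A₀ q.2 - W A₀ s₀)| := by ring_nf
    _ ≤ |W q.1 q.2 - W A₀ q.2| + |W A₀ q.2 - W A₀ s₀| := abs_add_le _ _
    _ ≤ _ := by linarith [hl q.1 A₀ q.2]

theorem continuous_avg_uncurry {d : ℕ} {φ : ℝ → ℝ} (hφ : Continuous φ) {W : ℝ → ℝ → ℝ}
    (hW : Continuous fun q : ℝ × ℝ => W q.1 q.2) :
    Continuous fun q : ℝ × ℝ => avg d φ (W q.1) q.2 := by
  unfold avg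
  apply intervalIntegral.continuous_parametric_intervalIntegral_of_continuous'
  have h1 : Continuous fun r : (ℝ × ℝ) × ℝ => W r.1.1 (r.2 * r.1.2) := by
    have h2 : Continuous fun r : (ℝ × ℝ) × ℝ => ((r.1.1, r.2 * r.1.2) : ℝ × ℝ) := by fun_prop
    exact hW.comp h2
  have h3 : Continuous fun r : (ℝ × ℝ) × ℝ => r.2 ^ d * φ (W r.1.1 (r.2 * r.1.2)) := by
    fun_prop
  exact h3

theorem avg_congr {d : ℕ} {φ ψ w : ℝ → ℝ} {c : ℝ} (h : ∀ r ∈ Icc 0 c, φ (w r) = ψ (w r)) :
    ∀ s ∈ Icc 0 c, avg d φ w s = avg d ψ w s := by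
  intro s hs
  unfold avg
  apply intervalIntegral.integral_congr
  intro x hx
  rw [uIcc_of_le zero_le_one] at hx
  have h1 : x * s ∈ Icc 0 c := by
    constructor
    · exact mul_nonneg hx.1 hs.1
    · calc x * s ≤ 1 * s := mul_le_mul_of_nonneg_right hx.2 hs.1
        _ ≤ c := by rw [one_mul]; exact hs.2
  simp only [h _ h1]

theorem op_congr {d : ℕ} {φ ψ w : ℝ → ℝ} {c : ℝ} (h : ∀ r ∈ Icc 0 c, φ (w r) = ψ (w r)) :
    ∀ s ∈ Icc 0 c, op d φ w s = op d ψ w s := by
  intro s hs
  unfold op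
  apply intervalIntegral.integral_congr
  intro x hx
  rw [uIcc_of_le hs.1] at hx
  simp only [avg_congr h x ⟨hx.1, hx.2.trans hs.2⟩]

/-- the explicit solution -/
noncomputable def gauss (d : ℕ) (s : ℝ) : ℝ := Real.exp ((d + 1) / 2 - s ^ 2 / 4)

theorem avg_gauss (d : ℕ) (s : ℝ) : avg d phi (gauss d) s = gauss d s / 2 := by
  have hd : ∀ x ∈ uIcc (0 : ℝ) 1, HasDerivAt (fun x => x ^ (d + 1) * gauss d (x * s) / 2)
      (x ^ d * phi (gauss d (x * s))) x := by
    intro x _
    have h1 : HasDerivAt (fun x : ℝ => ((d : ℝ) + 1) / 2 - (x * s) ^ 2 / 4)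
        (-(2 * (x * s) * s / 4)) x := by
      have h2 : HasDerivAt (fun x : ℝ => x * s) s x := by simpa using (hasDerivAt_id x).mul_const s
      have h3 := ((h2.pow 2).div_const 4).const_sub (((d : ℝ) + 1) / 2)
      refine h3.congr_deriv ?_
      push_cast
      ring
    have h2 := ((hasDerivAt_pow (d + 1) x).mul h1.exp).div_const 2
    refine h2.congr_deriv ?_
    simp only [phi, gauss, Real.log_exp]
    push_cast
    rw [pow_succ]
    simp
    ring
  unfold avg
  rw [intervalIntegral.integral_eq_sub_of_hasDerivAt hd]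
  · simp
  · apply Continuous.intervalIntegrable
    have : Continuous (gauss d) := by unfold gauss; fun_prop
    have := continuous_phi
    fun_prop

theorem gauss_eq (d : ℕ) (s : ℝ) : gauss d s = Real.exp ((d + 1) / 2) - op d phi (gauss d) s := by
  have hd : ∀ t ∈ uIcc (0 : ℝ) s, HasDerivAt (fun t => -gauss d t)
      (t * avg d phi (gauss d) t) t := by
    intro t _
    have h1 : HasDerivAt (fun t : ℝ => ((d : ℝ) + 1) / 2 - t ^ 2 / 4) (-(2 * t / 4)) t := by
      have h3 := ((hasDerivAt_pow 2 t).div_const 4).const_sub (((d : ℝ) + 1) / 2)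
      refine h3.congr_deriv ?_
      push_cast
      ring
    refine h1.exp.neg.congr_deriv ?_
    rw [avg_gauss, gauss]
    ring
  unfold op
  have hg : Continuous (gauss d) := by unfold gauss; fun_prop
  rw [intervalIntegral.integral_eq_sub_of_hasDerivAt hd]
  · simp [gauss]
  · apply Continuous.intervalIntegrable
    exact continuous_id.mul (continuous_avg continuous_phi hg)

/-- the family of positive solutions on `[0,T]` -/
theorem exists_true_family (d : ℕ) {T : ℝ} (hT : 0 ≤ T) :
    ∃ W g : ℝ → ℝ → ℝ, (Continuous fun q : ℝ × ℝ => W q.1 q.2) ∧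
      (Continuous fun q : ℝ × ℝ => g q.1 q.2) ∧
      (∀ A, 1 < A → A ≤ Real.exp ((d + 1) / 2) → IsSol d A T (W A) ∧
        ∀ s ∈ Icc 0 T, g A s = avg d phi (W A) s) ∧
      ∀ s ∈ Icc 0 T, W (Real.exp ((d + 1) / 2)) s = gauss d s := by
  set δ := Real.exp (-(T ^ 2 / 4)) / 2 with hδ
  set M := Real.exp (((d : ℝ) + 1) / 2) + 1 with hM
  have hδ0 : 0 < δ := by positivity
  have hexpT : Real.exp (-(T ^ 2 / 4)) ≤ 1 := Real.exp_le_one_iff.2 (by nlinarith)
  have hδ1 : δ < 1 := by rw [hδ]; linarith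
  have hδT : δ < Real.exp (-(T ^ 2 / 4)) := by rw [hδ]; linarith [Real.exp_pos (-(T ^ 2 / 4))]
  have hM1 : 1 < M := by rw [hM]; linarith [Real.exp_pos (((d : ℝ) + 1) / 2)]
  have hδM : δ ≤ M := (hδ1.trans hM1).le
  obtain ⟨L, hL0, hL⟩ := tphi_lip hδ0 hδM
  obtain ⟨B, hB⟩ := tphi_bdd hδM
  have hφ := continuous_tphi δ M
  obtain ⟨W, l, hWc, hWe, hWl⟩ := exists_family d hφ hL hL0 hB
  have hW2 := continuous_uncurry hWc hWl
  -- the Gausson
  have hgc : Continuous (gauss d) := by unfold gauss; fun_prop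
  have hgauss : ∀ r ∈ Icc 0 T, δ ≤ gauss d r ∧ gauss d r ≤ M := by
    intro r hr
    have hr2 : r ^ 2 ≤ T ^ 2 := pow_le_pow_left₀ hr.1 hr.2 2
    constructor
    · refine hδT.le.trans (Real.exp_le_exp.2 ?_)
      have : (0 : ℝ) ≤ d := by positivity
      linarith
    · rw [hM, gauss]
      have h1 : Real.exp (((d : ℝ) + 1) / 2 - r ^ 2 / 4) ≤ Real.exp (((d : ℝ) + 1) / 2) :=
        Real.exp_le_exp.2 (by nlinarith)
      linarith
  have hWg : ∀ s ∈ Icc 0 T, W (Real.exp (((d : ℝ) + 1) / 2)) s = gauss d s := by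
    apply op_unique (d := d) (A := Real.exp (((d : ℝ) + 1) / 2)) hφ hL hL0 (hWc _) hgc hT
    · intro s hs
      exact hWe _ s hs.1
    · intro s hs
      rw [op_congr (ψ := phi) (c := T) (fun r hr => tphi_eq (hgauss r hr).1 (hgauss r hr).2) s hs]
      exact gauss_eq d s
  -- range
  have hrange : ∀ A, 1 < A → A ≤ Real.exp (((d : ℝ) + 1) / 2) →
      ∀ s ∈ Icc 0 T, δ ≤ W A s ∧ W A s ≤ M := by
    intro A hA1 hA2
    rcases hA2.eq_or_lt with hA | hA
    · intro s hs
      rw [hA, hWg s hs]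
      exact hgauss s hs
    · have hA0 : 0 < A := by linarith
      have hlog : Real.log A < (d + 1) / 2 := (Real.log_lt_iff_lt_exp hA0).2 hA
      have hW0 : W A 0 = A := by
        have := hWe A 0 le_rfl
        simpa [op] using this
      by_contra hcon
      push Not at hcon
      obtain ⟨s', hs', hbad⟩ := hcon
      set Z : Set ℝ := Icc 0 T ∩ ({s | W A s ≤ δ} ∪ {s | M ≤ W A s}) with hZ
      have hZc : IsCompact Z :=
        isCompact_Icc.inter_right ((isClosed_le (hWc A) continuous_const).union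
          (isClosed_le continuous_const (hWc A)))
      have hZn : Z.Nonempty := by
        refine ⟨s', hs', ?_⟩
        by_cases h1 : δ ≤ W A s'
        · exact Or.inr (hbad h1).le
        · exact Or.inl (not_le.1 h1).le
      have h3 : sInf Z ∈ Z := hZc.sInf_mem hZn
      set c := sInf Z with hc
      have hlt : ∀ r ∈ Icc 0 T, r < c → δ < W A r ∧ W A r < M := by
        intro r hr hrc
        by_contra hcn
        have : r ∈ Z := by
          refine ⟨hr, ?_⟩
          by_cases h1 : δ < W A r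
          · right
            show M ≤ W A r
            by_contra h2
            exact hcn ⟨h1, not_le.1 h2⟩
          · left
            exact not_lt.1 h1
        exact absurd (csInf_le hZc.bddBelow this) (not_le.2 hrc)
      have hc0 : 0 < c := by
        rcases h3.1.1.eq_or_lt with h4 | h4
        · exfalso
          rcases h3.2 with h5 | h5
          · have h6 : W A c ≤ δ := h5
            rw [← h4, hW0] at h6
            linarith
          · have h6 : M ≤ W A c := h5
            rw [← h4, hW0, hM] at h6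
            linarith
        · exact h4
      have hle : ∀ r ∈ Icc 0 c, δ ≤ W A r ∧ W A r ≤ M := by
        have hcl : closure (Ico 0 c) = Icc 0 c := closure_Ico hc0.ne
        intro r hr
        rw [← hcl] at hr
        have hsub : Ico 0 c ⊆ {r | δ ≤ W A r} ∩ {r | W A r ≤ M} := by
          intro r hr
          have := hlt r ⟨hr.1, hr.2.le.trans h3.1.2⟩ hr.2
          exact ⟨this.1.le, this.2.le⟩
        exact closure_minimal hsub ((isClosed_le continuous_const (hWc A)).inter
          (isClosed_le (hWc A) continuous_const)) hr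
      have hsol : IsSol d A c (W A) := by
        refine ⟨hWc A, fun s hs => hδ0.trans_le (hle s hs).1, fun s hs => ?_⟩
        rw [← op_congr (φ := tphi δ M) (c := c) (fun r hr => tphi_eq (hle r hr).1 (hle r hr).2)
          s hs]
        exact hWe A s hs.1
      have h4 := apriori hsol hA1 hlog c ⟨hc0.le, le_rfl⟩
      rcases h3.2 with h5 | h5
      · have h6 : W A c ≤ δ := h5
        have h7 : Real.exp (-(T ^ 2 / 4)) ≤ Real.exp (-(c ^ 2 / 4)) := by
          apply Real.exp_le_exp.2
          have := pow_le_pow_left₀ hc0.le h3.1.2 2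
          linarith
        linarith [h4.1]
      · have h6 : M ≤ W A c := h5
        rw [hM] at h6
        linarith [h4.2]
  refine ⟨W, fun A s => avg d (tphi δ M) (W A) s, hW2, continuous_avg_uncurry hφ hW2, ?_, hWg⟩
  intro A hA1 hA2
  have h1 := hrange A hA1 hA2
  have h2 : ∀ r ∈ Icc 0 T, tphi δ M (W A r) = phi (W A r) :=
    fun r hr => tphi_eq (h1 r hr).1 (h1 r hr).2
  refine ⟨⟨hWc A, fun s hs => hδ0.trans_le (h1 s hs).1, fun s hs => ?_⟩, fun s hs =>
    avg_congr h2 s hs⟩
  rw [← op_congr h2 s hs]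
  exact hWe A s hs.1

end QGB
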