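import Mathlib

/-!
# Radial functions

The function `v (k ‖x - x₀‖)` is of class `C²` on the ball `‖x - x₀‖ < T / k` if `v' = s p`,
`p' = - q / s` with `v, p, q` continuous on `[0,T]` and `q 0 = 0`; its gradient and Laplacian.
-/

namespace QGB

open Set Filter Topology Asymptotics InnerProductSpace Laplacian Metric

section

variable {E : Type*} [NormedAddCommGroup E] [InnerProductSpace ℝ E]

/-- the inner product as a continuous bilinear map -/
noncomputable def BL : E →L[ℝ] E →L[ℝ] ℝ := innerSL ℝ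

theorem BL_apply (x y : E) : BL x y = inner ℝ x y := rfl

theorem norm_BL (x : E) : ‖BL x‖ = ‖x‖ := innerSL_apply_norm (𝕜 := ℝ) x

theorem hasFDerivAt_norm_sub (x₀ x : E) (hx : x - x₀ ≠ 0) :
    HasFDerivAt (fun x => ‖x - x₀‖) ((1 / ‖x - x₀‖) • BL (x - x₀)) x := by
  have h1 : HasFDerivAt (fun x : E => ‖x‖ ^ 2) (2 • (innerSL ℝ) (x - x₀)) (x - x₀) :=
    (hasStrictFDerivAt_norm_sq (x - x₀)).hasFDerivAt
  have hn : 0 < ‖x - x₀‖ := norm_pos_iff.2 hx
  have h2 := h1.sqrt (by positivity)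
  have h3 : HasFDerivAt (fun x : E => x - x₀) (ContinuousLinearMap.id ℝ E) x :=
    (hasFDerivAt_id x).sub_const x₀
  have h4 := h2.comp x h3
  have h5 : (fun x : E => √(‖x‖ ^ 2)) ∘ (fun x => x - x₀) = fun x => ‖x - x₀‖ := by
    funext y
    simp [Real.sqrt_sq]
  rw [h5] at h4
  refine h4.congr_fderiv ?_
  ext y
  simp only [Real.sqrt_sq (norm_nonneg _), ContinuousLinearMap.comp_id,
    smul_apply, BL, smul_eq_mul, nsmul_eq_mul]
  field_simp
  norm_num

/-- data of a radial profile -/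
structure Prof (T : ℝ) (v p q : ℝ → ℝ) : Prop where
  hv : ∀ s ∈ Ioo 0 T, HasDerivAt v (s * p s) s
  hp : ∀ s ∈ Ioo 0 T, HasDerivAt p (-(q s) / s) s
  cv : ContinuousOn v (Icc 0 T)
  cp : ContinuousOn p (Icc 0 T)
  cq : ContinuousOn q (Icc 0 T)
  q0 : q 0 = 0

/-- the first derivative -/
noncomputable def G1 (k : ℝ) (x₀ : E) (p : ℝ → ℝ) (x : E) : E →L[ℝ] ℝ :=
  (k ^ 2 * p (k * ‖x - x₀‖)) • BL (x - x₀)

/-- the second derivative -/
noncomputable def G2 (k : ℝ) (x₀ : E) (p q : ℝ → ℝ) (x : E) : E →L[ℝ] E →L[ℝ] ℝ :=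
  (k ^ 2 * p (k * ‖x - x₀‖)) • BL +
    ((-(k ^ 2 * q (k * ‖x - x₀‖) / ‖x - x₀‖ ^ 2)) • BL (x - x₀)).smulRight (BL (x - x₀))

variable {T k : ℝ} {v p q : ℝ → ℝ} {x₀ : E}

omit [InnerProductSpace ℝ E] in
theorem mem_of_ball (hk : 0 < k) {x : E} (hx : x ∈ ball x₀ (T / k)) :
    0 ≤ k * ‖x - x₀‖ ∧ k * ‖x - x₀‖ < T := by
  rw [mem_ball, dist_eq_norm, lt_div_iff₀ hk] at hx
  exact ⟨by positivity, by linarith⟩

omit [InnerProductSpace ℝ E] in
theorem tendsto_radial {f : ℝ → ℝ} (hf : ContinuousOn f (Icc 0 T)) (hk : 0 < k) {x : E}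
    (hx : x ∈ ball x₀ (T / k)) : ContinuousAt (fun x => f (k * ‖x - x₀‖)) x := by
  have h1 := mem_of_ball hk hx
  have h2 : ContinuousOn (fun x : E => f (k * ‖x - x₀‖)) (ball x₀ (T / k)) := by
    have h3 : ContinuousOn (fun x : E => k * ‖x - x₀‖) (ball x₀ (T / k)) := by fun_prop
    exact hf.comp h3 (fun y hy => ⟨(mem_of_ball hk hy).1, (mem_of_ball hk hy).2.le⟩)
  exact h2.continuousAt (isOpen_ball.mem_nhds hx)

theorem Prof.hasFDerivAt (h : Prof T v p q) (hk : 0 < k) {x : E}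
    (hx : x ∈ ball x₀ (T / k)) :
    HasFDerivAt (fun x => v (k * ‖x - x₀‖)) (G1 k x₀ p x) x := by
  obtain ⟨h0, h1⟩ := mem_of_ball hk hx
  by_cases hz : x - x₀ = 0
  · have hx0 : x = x₀ := sub_eq_zero.1 hz
    subst hx0
    -- bound
    obtain ⟨C, hC⟩ := isCompact_Icc.exists_bound_of_continuousOn h.cp
    have hbd : ∀ s ∈ Ico 0 T, |v s - v 0| ≤ C * s ^ 2 := by
      intro s hs
      rcases hs.1.eq_or_lt with h2 | h2
      · rw [← h2]; simp
      · obtain ⟨ξ, hξ, hξ2⟩ := exists_hasDerivAt_eq_slope v (fun s => s * p s) h2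
          (h.cv.mono (Icc_subset_Icc_right hs.2.le))
          (fun r hr => h.hv r ⟨hr.1, hr.2.trans hs.2⟩)
        have h3 : v s - v 0 = ξ * p ξ * s := by
          simp only [sub_zero] at hξ2
          rw [hξ2]
          field_simp
        have h4 : |p ξ| ≤ C := hC ξ ⟨hξ.1.le, hξ.2.le.trans hs.2.le⟩
        rw [h3, abs_mul, abs_mul, abs_of_pos hξ.1, abs_of_pos h2]
        have hC0 : 0 ≤ C := (abs_nonneg _).trans h4
        calc ξ * |p ξ| * s ≤ s * C * s := by
              apply mul_le_mul_of_nonneg_right _ h2.le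
              exact mul_le_mul hξ.2.le h4 (abs_nonneg _) h2.le
          _ = C * s ^ 2 := by ring
    have hO : (fun y : E => v (k * ‖y - x‖) - v 0) =O[𝓝 x] fun y => ‖y - x‖ ^ 2 := by
      apply IsBigO.of_bound (C * k ^ 2)
      filter_upwards [isOpen_ball.mem_nhds hx] with y hy
      have h2 := hbd _ (mem_of_ball hk hy)
      rw [Real.norm_eq_abs, Real.norm_eq_abs, abs_of_nonneg (by positivity : 0 ≤ ‖y - x‖ ^ 2)]
      calc |v (k * ‖y - x‖) - v 0| ≤ C * (k * ‖y - x‖) ^ 2 := h2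
        _ = C * k ^ 2 * ‖y - x‖ ^ 2 := by ring
    have h2 := (hO.hasFDerivAt (𝕜 := ℝ) (by norm_num)).add_const (v 0)
    have h3 : (fun y : E => v (k * ‖y - x‖) - v 0 + v 0) = fun y => v (k * ‖y - x‖) := by
      funext y; ring
    rw [h3] at h2
    refine h2.congr_fderiv ?_
    simp [G1]
  · have hn : 0 < ‖x - x₀‖ := norm_pos_iff.2 hz
    have hs : k * ‖x - x₀‖ ∈ Ioo 0 T := ⟨by positivity, h1⟩
    have h2 := (hasFDerivAt_norm_sub x₀ x hz).const_mul k
    have h3 := (h.hv _ hs).comp_hasFDerivAt x h2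
    refine h3.congr_fderiv ?_
    ext y
    simp only [G1, smul_apply, smul_eq_mul]
    field_simp

theorem Prof.hasFDerivAt_G1 (h : Prof T v p q) (hk : 0 < k) {x : E}
    (hx : x ∈ ball x₀ (T / k)) :
    HasFDerivAt (G1 k x₀ p) (G2 k x₀ p q x) x := by
  obtain ⟨h0, h1⟩ := mem_of_ball hk hx
  have hB : HasFDerivAt (fun x : E => BL (x - x₀)) (BL : E →L[ℝ] E →L[ℝ] ℝ) x := by
    have h3 : HasFDerivAt (fun x : E => x - x₀) (ContinuousLinearMap.id ℝ E) x :=
      (hasFDerivAt_id x).sub_const x₀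
    have h4 := (BL : E →L[ℝ] E →L[ℝ] ℝ).hasFDerivAt.comp x h3
    refine h4.congr_fderiv ?_
    ext y z
    simp
  by_cases hz : x - x₀ = 0
  · have hx0 : x = x₀ := sub_eq_zero.1 hz
    subst hx0
    have hG2 : G2 k x p q x = (k ^ 2 * p 0) • BL := by
      ext y z
      simp [G2]
    rw [hG2]
    apply HasFDerivAt.of_isLittleO
    have h2 : (fun y : E => G1 k x p y - G1 k x p x - ((k ^ 2 * p 0) • BL) (y - x)) =
        fun y => (k ^ 2 * (p (k * ‖y - x‖) - p 0)) • BL (y - x) := by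
      funext y
      ext z
      simp only [G1, sub_self, norm_zero, mul_zero, map_zero, smul_zero, sub_zero, smul_apply,
        sub_apply, smul_eq_mul]
      ring
    rw [h2]
    have h3 : (fun y : E => k ^ 2 * (p (k * ‖y - x‖) - p 0)) =o[𝓝 x] fun _ : E => (1 : ℝ) := by
      rw [isLittleO_one_iff]
      have h4 := tendsto_radial h.cp hk hx
      have h5 : Tendsto (fun y : E => k ^ 2 * (p (k * ‖y - x‖) - p 0)) (𝓝 x)
          (𝓝 (k ^ 2 * (p (k * ‖x - x‖) - p 0))) := (h4.sub continuousAt_const).const_mul _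
      simpa using h5
    have h4 : (fun y : E => BL (y - x)) =O[𝓝 x] fun y => y - x := by
      apply IsBigO.of_bound 1
      exact Eventually.of_forall fun y => by rw [norm_BL, one_mul]
    have h5 := h3.smul_isBigO h4
    simpa using h5
  · have hn : 0 < ‖x - x₀‖ := norm_pos_iff.2 hz
    have hs : k * ‖x - x₀‖ ∈ Ioo 0 T := ⟨by positivity, h1⟩
    have h2 := (hasFDerivAt_norm_sub x₀ x hz).const_mul k
    have h3 := ((h.hp _ hs).comp_hasFDerivAt x h2).const_mul (k ^ 2)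
    have h4 := h3.smul hB
    refine h4.congr_fderiv ?_
    ext y z
    simp only [G2, add_apply, smul_apply, smul_eq_mul,
      ContinuousLinearMap.smulRight_apply, Function.comp]
    field_simp

theorem Prof.continuousOn_G2 (h : Prof T v p q) (hk : 0 < k) :
    ContinuousOn (G2 k x₀ p q) (ball x₀ (T / k)) := by
  intro x hx
  apply ContinuousAt.continuousWithinAt
  have hp := tendsto_radial h.cp hk hx
  have hq := tendsto_radial h.cq hk hx
  have hb : Continuous fun x : E => BL (x - x₀) := by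
    exact (BL : E →L[ℝ] E →L[ℝ] ℝ).continuous.comp (continuous_id.sub continuous_const)
  have h1 : ContinuousAt (fun x : E => (k ^ 2 * p (k * ‖x - x₀‖)) •
      (BL : E →L[ℝ] E →L[ℝ] ℝ)) x := (continuousAt_const.mul hp).smul continuousAt_const
  unfold G2
  let _ : NormedAddCommGroup (E →L[ℝ] E →L[ℝ] ℝ) := ContinuousLinearMap.toNormedAddCommGroup
  have _ : IsTopologicalAddGroup (E →L[ℝ] E →L[ℝ] ℝ) :=
    SeminormedAddCommGroup.toIsTopologicalAddGroup
  have _ : ContinuousAdd (E →L[ℝ] E →L[ℝ] ℝ) := IsTopologicalAddGroup.toContinuousAdd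
  refine h1.add ?_
  by_cases hz : x - x₀ = 0
  · have hx0 : x = x₀ := sub_eq_zero.1 hz
    subst hx0
    have h2 : ((-(k ^ 2 * q (k * ‖x - x‖) / ‖x - x‖ ^ 2)) • BL (x - x)).smulRight
        (BL (x - x)) = 0 := by
      simp
    rw [ContinuousAt, h2]
    rw [tendsto_zero_iff_norm_tendsto_zero]
    have h3 : Tendsto (fun y : E => k ^ 2 * |q (k * ‖y - x‖)|) (𝓝 x) (𝓝 0) := by
      have h4 : Tendsto (fun y : E => k ^ 2 * |q (k * ‖y - x‖)|) (𝓝 x)
        (𝓝 (k ^ 2 * |q (k * ‖x - x‖)|)) := (hq.abs).const_mul _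
      simpa [h.q0] using h4
    refine squeeze_zero (fun _ => norm_nonneg _) (fun y => ?_) h3
    rw [ContinuousLinearMap.norm_smulRight_apply, norm_smul, norm_BL, norm_neg, norm_div,
      norm_mul, norm_pow, norm_pow, norm_norm, Real.norm_eq_abs, Real.norm_eq_abs, abs_of_pos hk]
    rcases eq_or_ne (‖y - x‖) 0 with h5 | h5
    · rw [h5]
      simp
      positivity
    · apply le_of_eq
      field_simp
  · have hn : ‖x - x₀‖ ≠ 0 := (norm_pos_iff.2 hz).ne'
    have h2 : ContinuousAt (fun x : E => -(k ^ 2 * q (k * ‖x - x₀‖) / ‖x - x₀‖ ^ 2)) x := by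
      apply ContinuousAt.neg
      apply ContinuousAt.div (continuousAt_const.mul hq)
      · have : Continuous fun x : E => ‖x - x₀‖ ^ 2 := by fun_prop
        exact this.continuousAt
      · exact pow_ne_zero _ hn
    have h3 : ContinuousAt (fun x : E => (-(k ^ 2 * q (k * ‖x - x₀‖) / ‖x - x₀‖ ^ 2)) •
        BL (x - x₀)) x := h2.smul hb.continuousAt
    have h4 := ((ContinuousLinearMap.smulRightL ℝ E (E →L[ℝ] ℝ)).continuous.continuousAt.comp
      h3).clm_apply hb.continuousAt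
    exact h4

theorem Prof.fderiv_eq (h : Prof T v p q) (hk : 0 < k) {x : E}
    (hx : x ∈ ball x₀ (T / k)) :
    fderiv ℝ (fun x => v (k * ‖x - x₀‖)) x = G1 k x₀ p x := (h.hasFDerivAt hk hx).fderiv

theorem Prof.hasFDerivAt_fderiv (h : Prof T v p q) (hk : 0 < k) {x : E}
    (hx : x ∈ ball x₀ (T / k)) :
    HasFDerivAt (fderiv ℝ (fun x => v (k * ‖x - x₀‖))) (G2 k x₀ p q x) x := by
  refine (h.hasFDerivAt_G1 hk hx).congr_of_eventuallyEq ?_
  filter_upwards [isOpen_ball.mem_nhds hx] with y hy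
  exact h.fderiv_eq hk hy

theorem Prof.contDiffOn (h : Prof T v p q) (hk : 0 < k) :
    ContDiffOn ℝ 2 (fun x : E => v (k * ‖x - x₀‖)) (ball x₀ (T / k)) := by
  have h2 : (2 : WithTop ℕ∞) = 1 + 1 := by norm_num
  rw [h2, contDiffOn_succ_iff_fderiv_of_isOpen isOpen_ball]
  refine ⟨fun x hx => (h.hasFDerivAt hk hx).differentiableAt.differentiableWithinAt,
    by simp, ?_⟩
  have h1 : (1 : WithTop ℕ∞) = 0 + 1 := by norm_num
  rw [h1, contDiffOn_succ_iff_fderiv_of_isOpen isOpen_ball]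
  refine ⟨fun x hx => (h.hasFDerivAt_fderiv hk hx).differentiableAt.differentiableWithinAt,
    by simp, ?_⟩
  rw [contDiffOn_zero]
  exact (h.continuousOn_G2 hk).congr fun x hx => (h.hasFDerivAt_fderiv hk hx).fderiv

end

section

variable {n : ℕ} {T k : ℝ} {v p q : ℝ → ℝ} {x₀ : EuclideanSpace ℝ (Fin n)}

theorem Prof.laplacian (h : Prof T v p q) (hk : 0 < k)
    {x : EuclideanSpace ℝ (Fin n)} (hx : x ∈ ball x₀ (T / k)) :
    Δ (fun x => v (k * ‖x - x₀‖)) x = k ^ 2 * (n * p (k * ‖x - x₀‖) - q (k * ‖x - x₀‖)) := by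
  rw [laplacian_eq_iteratedFDeriv_orthonormalBasis _ (EuclideanSpace.basisFun (Fin n) ℝ)]
  simp only [iteratedFDeriv_two_apply]
  rw [(h.hasFDerivAt_fderiv hk hx).fderiv]
  simp only [Matrix.cons_val_zero, Matrix.cons_val_one, G2, add_apply,
    smul_apply, ContinuousLinearMap.smulRight_apply, smul_eq_mul, BL_apply]
  rw [Finset.sum_add_distrib]
  have h1 : ∀ i : Fin n, inner ℝ ((EuclideanSpace.basisFun (Fin n) ℝ) i)
      ((EuclideanSpace.basisFun (Fin n) ℝ) i) = (1 : ℝ) := by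
    intro i
    rw [real_inner_self_eq_norm_sq, OrthonormalBasis.norm_eq_one]
    norm_num
  have h2 : ∑ i : Fin n, inner ℝ (x - x₀) ((EuclideanSpace.basisFun (Fin n) ℝ) i) ^ 2 =
      ‖x - x₀‖ ^ 2 := by
    have := (EuclideanSpace.basisFun (Fin n) ℝ).sum_sq_norm_inner_left (x - x₀)
    simpa using this
  simp only [h1, mul_one, Finset.sum_const, Finset.card_univ, Fintype.card_fin, nsmul_eq_mul]
  have h3 : ∑ i : Fin n, -(k ^ 2 * q (k * ‖x - x₀‖) / ‖x - x₀‖ ^ 2) *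
      inner ℝ (x - x₀) ((EuclideanSpace.basisFun (Fin n) ℝ) i) *
      inner ℝ (x - x₀) ((EuclideanSpace.basisFun (Fin n) ℝ) i) =
      -(k ^ 2 * q (k * ‖x - x₀‖)) := by
    have h4 : ∀ i : Fin n, -(k ^ 2 * q (k * ‖x - x₀‖) / ‖x - x₀‖ ^ 2) *
      inner ℝ (x - x₀) ((EuclideanSpace.basisFun (Fin n) ℝ) i) *
      inner ℝ (x - x₀) ((EuclideanSpace.basisFun (Fin n) ℝ) i) =
      -(k ^ 2 * q (k * ‖x - x₀‖) / ‖x - x₀‖ ^ 2) *
      inner ℝ (x - x₀) ((EuclideanSpace.basisFun (Fin n) ℝ) i) ^ 2 := fun i => by ring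
    simp only [h4]
    rw [← Finset.mul_sum, h2]
    rcases eq_or_ne (‖x - x₀‖) 0 with h5 | h5
    · rw [h5]
      simp [h.q0]
    · field_simp
  rw [h3]
  ring

theorem Prof.gradient (h : Prof T v p q) (hk : 0 < k)
    {x : EuclideanSpace ℝ (Fin n)} (hx : x ∈ ball x₀ (T / k)) :
    gradient (fun x => v (k * ‖x - x₀‖)) x = (k ^ 2 * p (k * ‖x - x₀‖)) • (x - x₀) := by
  apply HasGradientAt.gradient
  rw [hasGradientAt_iff_hasFDerivAt]
  refine (h.hasFDerivAt hk hx).congr_fderiv ?_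
  ext y
  simp [G1, BL_apply]

end

end QGB
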