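import Pool.Agent.QGB.Count
import Pool.Agent.QGB.Radial

/-!
# Many radial solutions in a ball
-/

namespace QGB

open Set Filter Topology InnerProductSpace Laplacian Metric

theorem IsSol.prof {d : ℕ} {A T : ℝ} {w : ℝ → ℝ} (h : IsSol d A T w) (hA : 1 < A) (hT : 0 ≤ T)
    (e μ : ℝ) :
    Prof T (fun s => (vv w s + e) / μ) (fun s => pp d w s / μ)
      (fun s => (vv w s + (d + 1) * pp d w s + s ^ 2 * pp d w s ^ 2) / μ) where
  hv := by
    intro s hs
    refine (((h.hasDerivAt_vv hs).add_const e).div_const μ).congr_deriv ?_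
    rw [yy]
    ring
  hp := by
    intro s hs
    refine ((h.hasDerivAt_pp hs).div_const μ).congr_deriv ?_
    ring
  cv := by
    have h1 := h.continuousOn_vv
    fun_prop
  cp := by
    have h1 := h.continuousOn_pp
    fun_prop
  cq := by
    have h1 := h.continuousOn_vv
    have h2 := h.continuousOn_pp
    fun_prop
  q0 := by
    have h3 : pp d w 0 = -(Real.log A) / (d + 1) := by
      rw [pp, avg_zero, h.zero hT, phi]
      have : A ≠ 0 := by linarith
      field_simp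
    have hd : (0 : ℝ) < d + 1 := by positivity
    simp only [h.vv_zero hT, h3]
    field_simp
    ring

/-- the main construction -/
theorem exists_many (d : ℕ) (x₀ : EuclideanSpace ℝ (Fin (d + 1))) {R c μ : ℝ} (hR : 0 < R)
    (hc : 0 < c) (hμ : 0 < μ) (h : ℝ) :
    ∃ Λ : ℝ, 0 < Λ ∧ ∀ lam : ℝ, Λ ≤ lam → ∃ n : ℕ, 3 ≤ n ∧
      R * √(lam * c) / (512 * (d + 1)) ≤ n ∧
      ∃ (u : Fin n → EuclideanSpace ℝ (Fin (d + 1)) → ℝ),
        (∀ i j, i ≠ j → u i x₀ ≠ u j x₀) ∧
        ∀ i, (∃ f : ℝ → ℝ, ∀ x, u i x = f ‖x - x₀‖) ∧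
          (∃ ρ, R < ρ ∧ ContDiffOn ℝ 2 (u i) (ball x₀ ρ)) ∧
          (∀ x ∈ ball x₀ R, -(Δ (u i) x) = lam * (c * u i x) + μ * ‖gradient (u i) x‖ ^ 2 + h) ∧
          ∀ x ∈ sphere x₀ R, u i x = 0 := by
  have hd0 : (0 : ℝ) < d + 1 := by positivity
  set Λ : ℝ := (1152 * (d + 1) / R) ^ 2 / c + 6 * μ * |h| / c + 1 with hΛ
  have hΛ0 : 0 < Λ := by positivity
  refine ⟨Λ, hΛ0, fun lam hlam => ?_⟩
  have hlam0 : 0 < lam := hΛ0.trans_le hlam
  have hlc : 0 < lam * c := by positivity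
  set k : ℝ := √(lam * c) with hk
  have hk0 : 0 < k := Real.sqrt_pos.2 hlc
  have hk2 : k ^ 2 = lam * c := Real.sq_sqrt hlc.le
  have hk1 : 1152 * (d + 1) / R ≤ k := by
    apply Real.le_sqrt_of_sq_le
    have h1 : (1152 * ((d : ℝ) + 1) / R) ^ 2 / c ≤ lam := by
      have : 0 ≤ 6 * μ * |h| / c := by positivity
      linarith
    rwa [div_le_iff₀ hc] at h1
  set S : ℝ := R * k with hS
  have hS1 : 1152 * ((d : ℝ) + 1) ≤ S := by
    rw [div_le_iff₀ hR] at hk1
    linarith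
  have hS0 : 0 < S := by positivity
  set e : ℝ := -(μ * h) / (lam * c) with he
  have he1 : |e| < 1 / 6 := by
    rw [he, abs_div, abs_of_pos hlc, div_lt_iff₀ hlc, abs_neg, abs_mul, abs_of_pos hμ]
    have h1 : 6 * μ * |h| / c < lam := by
      have : 0 ≤ (1152 * ((d : ℝ) + 1) / R) ^ 2 / c := by positivity
      linarith
    rw [div_lt_iff₀ hc] at h1
    linarith
  set t : ℝ := S / (256 * (d + 1)) - 5 / 4 with ht
  have ht1 : 13 / 4 ≤ t := by
    have : 4.5 ≤ S / (256 * (d + 1)) := by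
      rw [le_div_iff₀ (by positivity)]
      linarith
    rw [ht]
    linarith
  set n : ℕ := ⌊t⌋₊ with hn
  have hn1 : (n : ℝ) ≤ t := Nat.floor_le (by linarith)
  have hn2 : t < n + 1 := Nat.lt_floor_add_one t
  have hn3 : 3 ≤ n := Nat.le_floor (by push_cast; linarith)
  have hSn : 64 * ((d : ℝ) + 1) * (4 * (n + 1) + 1) ≤ S := by
    rw [ht] at hn1
    have h1 : (n : ℝ) + 5 / 4 ≤ S / (256 * (d + 1)) := by linarith
    rw [le_div_iff₀ (by positivity)] at h1
    linarith
  obtain ⟨w, z, hwz, hanti⟩ := count d n hSn he1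
  refine ⟨n, hn3, ?_, fun i x => (vv (w i) (k * ‖x - x₀‖) + e) / μ, ?_, ?_⟩
  · have h1 : S / (256 * (d + 1)) < n + 9 / 4 := by
      rw [ht] at hn2
      linarith
    have h2 : 9 / 4 ≤ S / (512 * (d + 1)) := by
      rw [le_div_iff₀ (by positivity)]
      linarith
    have h3 : S / (256 * (d + 1)) = 2 * (S / (512 * (d + 1))) := by
      field_simp
      norm_num
    linarith
  · intro i j hij
    obtain ⟨_, hi2, _⟩ := hwz i i.2
    obtain ⟨_, hj2, _⟩ := hwz j j.2
    have hT : 0 ≤ S + 1 := by linarith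
    simp only [sub_self, norm_zero, mul_zero, hi2.vv_zero hT, hj2.vv_zero hT, Real.log_exp]
    have hne : z i ≠ z j := by
      have hij' : (i : ℕ) ≠ j := fun h => hij (Fin.ext h)
      rcases lt_or_gt_of_ne hij' with h1 | h1
      · exact (hanti i j h1 j.2).ne'
      · exact (hanti j i h1 i.2).ne
    intro h1
    apply hne
    field_simp at h1
    linarith
  · intro i
    obtain ⟨hz0, hsol, hS2⟩ := hwz i i.2
    have hT : 0 < S + 1 := by linarith
    have hA : 1 < Real.exp (z i) := Real.one_lt_exp_iff.2 hz0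
    have hprof := hsol.prof hA hT.le e μ
    have hRT : R < (S + 1) / k := by
      rw [lt_div_iff₀ hk0]
      linarith
    refine ⟨⟨fun r => (vv (w i) (k * r) + e) / μ, fun x => rfl⟩,
      ⟨(S + 1) / k, hRT, hprof.contDiffOn (x₀ := x₀) hk0⟩, ?_, ?_⟩
    · intro x hx
      have hx' : x ∈ ball x₀ ((S + 1) / k) := ball_subset_ball hRT.le hx
      rw [hprof.laplacian hk0 hx', hprof.gradient hk0 hx']
      have h1 : ‖(k ^ 2 * (pp d (w i) (k * ‖x - x₀‖) / μ)) • (x - x₀)‖ ^ 2 =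
          k ^ 2 * ((k * ‖x - x₀‖) ^ 2 * pp d (w i) (k * ‖x - x₀‖) ^ 2) / μ ^ 2 := by
        rw [norm_smul, mul_pow, Real.norm_eq_abs, sq_abs]
        ring
      rw [h1, hk2, he]
      push_cast
      have hlc' : lam * c ≠ 0 := hlc.ne'
      field_simp
      ring
    · intro x hx
      have h1 : ‖x - x₀‖ = R := by
        rw [← dist_eq_norm]
        exact hx
      have h2 : k * R = S := by rw [hS]; ring
      simp only [h1, h2, hS2]
      simp

end QGB
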