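import Mathlib

/-!
# A singular integral equation

`W s = A - ∫_0^s t * (∫_0^1 x^d φ(W (x t)) dx) dt`, the radial form of `W'' + (d/s) W' + φ(W) = 0`,
`W 0 = A`, `W' 0 = 0`, for bounded and Lipschitz `φ`: existence on the half line, uniqueness on every
`[0,T]`, Lipschitz dependence on `A`.
-/

namespace QGB

open Set Filter Topology MeasureTheory intervalIntegral

/-- the average `∫_0^1 x^d φ(w (x t)) dx` -/
noncomputable def avg (d : ℕ) (φ : ℝ → ℝ) (w : ℝ → ℝ) (t : ℝ) : ℝ :=
  ∫ x in (0 : ℝ)..1, x ^ d * φ (w (x * t))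

theorem continuous_avg {d : ℕ} {φ w : ℝ → ℝ} (hφ : Continuous φ) (hw : Continuous w) :
    Continuous (avg d φ w) := by
  unfold avg
  apply intervalIntegral.continuous_parametric_intervalIntegral_of_continuous'
  have : Continuous fun p : ℝ × ℝ => p.2 ^ d * φ (w (p.2 * p.1)) := by fun_prop
  exact this

/-- the integral operator -/
noncomputable def op (d : ℕ) (φ : ℝ → ℝ) (w : ℝ → ℝ) (s : ℝ) : ℝ :=
  ∫ t in (0 : ℝ)..s, t * avg d φ w t

theorem continuous_op {d : ℕ} {φ w : ℝ → ℝ} (hφ : Continuous φ) (hw : Continuous w) :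
    Continuous (op d φ w) := by
  have hc : Continuous fun t => t * avg d φ w t := continuous_id.mul (continuous_avg hφ hw)
  exact intervalIntegral.continuous_primitive (fun a b => hc.intervalIntegrable a b) 0

theorem hasDerivAt_op {d : ℕ} {φ w : ℝ → ℝ} (hφ : Continuous φ) (hw : Continuous w) (s : ℝ) :
    HasDerivAt (op d φ w) (s * avg d φ w s) s := by
  have hc : Continuous fun t => t * avg d φ w t := continuous_id.mul (continuous_avg hφ hw)
  exact intervalIntegral.integral_hasDerivAt_right (hc.intervalIntegrable _ _)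
    (hc.stronglyMeasurableAtFilter _ _) hc.continuousAt

theorem abs_avg_le {d : ℕ} {φ w : ℝ → ℝ} {B : ℝ} (hB : ∀ y, |φ y| ≤ B) (t : ℝ) :
    |avg d φ w t| ≤ B := by
  have h := intervalIntegral.norm_integral_le_of_norm_le_const (a := (0 : ℝ)) (b := 1) (C := B)
    (f := fun x => x ^ d * φ (w (x * t))) ?_
  · simpa [avg] using h
  · intro x hx
    rw [uIoc_of_le zero_le_one] at hx
    rw [norm_mul, Real.norm_eq_abs, Real.norm_eq_abs, abs_of_nonneg (pow_nonneg hx.1.le d)]
    have h1 : x ^ d ≤ 1 := pow_le_one₀ hx.1.le hx.2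
    calc x ^ d * |φ (w (x * t))| ≤ 1 * |φ (w (x * t))| :=
          mul_le_mul_of_nonneg_right h1 (abs_nonneg _)
      _ ≤ B := by rw [one_mul]; exact hB _

/-- the basic estimate -/
theorem avg_sub_le {d : ℕ} {φ w w' : ℝ → ℝ} {L D l : ℝ} (hφ : Continuous φ)
    (hL : ∀ y y', |φ y - φ y'| ≤ L * |y - y'|) (hL0 : 0 ≤ L) (hl : 0 < l)
    (hw : Continuous w) (hw' : Continuous w') {t : ℝ} (ht : 0 ≤ t)
    (hD : ∀ r ∈ Icc 0 t, |w r - w' r| ≤ D * Real.exp (l * r)) :
    |t * avg d φ w t - t * avg d φ w' t| ≤ L * D / l * Real.exp (l * t) := by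
  have hD0 : 0 ≤ D := by
    have := hD 0 ⟨le_rfl, ht⟩
    simp only [mul_zero, Real.exp_zero, mul_one] at this
    exact (abs_nonneg _).trans this
  have h1 : t * avg d φ w t - t * avg d φ w' t =
      ∫ x in (0 : ℝ)..1, t * (x ^ d * φ (w (x * t)) - x ^ d * φ (w' (x * t))) := by
    rw [intervalIntegral.integral_const_mul, intervalIntegral.integral_sub]
    · simp only [avg]; ring
    · apply Continuous.intervalIntegrable; fun_prop
    · apply Continuous.intervalIntegrable; fun_prop
  have h2 : |t * avg d φ w t - t * avg d φ w' t| ≤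
      ∫ x in (0 : ℝ)..1, L * D * (t * Real.exp (l * (x * t))) := by
    rw [h1, ← Real.norm_eq_abs]
    refine intervalIntegral.norm_integral_le_of_norm_le zero_le_one ?_ ?_
    · refine Eventually.of_forall fun x hx => ?_
      rw [← mul_sub, norm_mul, norm_mul, Real.norm_eq_abs, Real.norm_eq_abs, Real.norm_eq_abs,
        abs_of_nonneg ht, abs_of_nonneg (pow_nonneg hx.1.le d)]
      have h3 : x ^ d ≤ 1 := pow_le_one₀ hx.1.le hx.2
      have h4 : x * t ∈ Icc 0 t := by
        constructor
        · exact mul_nonneg hx.1.le ht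
        · nlinarith [hx.2]
      have h5 := (hL (w (x * t)) (w' (x * t))).trans (mul_le_mul_of_nonneg_left (hD _ h4) hL0)
      have h6 : 0 ≤ |φ (w (x * t)) - φ (w' (x * t))| := abs_nonneg _
      calc t * (x ^ d * |φ (w (x * t)) - φ (w' (x * t))|)
          ≤ t * (1 * |φ (w (x * t)) - φ (w' (x * t))|) := by gcongr
        _ ≤ t * (1 * (L * (D * Real.exp (l * (x * t))))) := by gcongr
        _ = L * D * (t * Real.exp (l * (x * t))) := by ring
    · apply Continuous.intervalIntegrable; fun_prop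
  have h3 : ∫ x in (0 : ℝ)..1, L * D * (t * Real.exp (l * (x * t))) =
      L * D * ((Real.exp (l * t) - 1) / l) := by
    have hd : ∀ x ∈ uIcc (0 : ℝ) 1, HasDerivAt (fun x => L * D * (Real.exp (l * (x * t)) / l))
        (L * D * (t * Real.exp (l * (x * t)))) x := by
      intro x _
      have h4 : HasDerivAt (fun x : ℝ => l * (x * t)) (l * t) x := by
        simpa using ((hasDerivAt_id x).mul_const t).const_mul l
      have h5 := (h4.exp.div_const l).const_mul (L * D)
      have h6 : Real.exp (l * (x * t)) * (l * t) / l = t * Real.exp (l * (x * t)) := by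
        field_simp
      rwa [h6] at h5
    rw [intervalIntegral.integral_eq_sub_of_hasDerivAt hd]
    · simp
      ring
    · apply Continuous.intervalIntegrable; fun_prop
  rw [h3] at h2
  refine h2.trans ?_
  have h4 : 0 ≤ L * D / l := by positivity
  calc L * D * ((Real.exp (l * t) - 1) / l) = L * D / l * (Real.exp (l * t) - 1) := by ring
    _ ≤ L * D / l * Real.exp (l * t) := by
        apply mul_le_mul_of_nonneg_left _ h4; linarith

theorem op_sub_le {d : ℕ} {φ w w' : ℝ → ℝ} {L D l : ℝ} (hφ : Continuous φ)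
    (hL : ∀ y y', |φ y - φ y'| ≤ L * |y - y'|) (hL0 : 0 ≤ L) (hl : 0 < l)
    (hw : Continuous w) (hw' : Continuous w') {s : ℝ} (hs : 0 ≤ s)
    (hD : ∀ r ∈ Icc 0 s, |w r - w' r| ≤ D * Real.exp (l * r)) :
    |op d φ w s - op d φ w' s| ≤ L / l ^ 2 * D * Real.exp (l * s) := by
  have hD0 : 0 ≤ D := by
    have := hD 0 ⟨le_rfl, hs⟩
    simp only [mul_zero, Real.exp_zero, mul_one] at this
    exact (abs_nonneg _).trans this
  have hc : ∀ v : ℝ → ℝ, Continuous v → Continuous fun t => t * avg d φ v t :=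
    fun v hv => continuous_id.mul (continuous_avg hφ hv)
  have h1 : op d φ w s - op d φ w' s =
      ∫ t in (0 : ℝ)..s, (t * avg d φ w t - t * avg d φ w' t) := by
    rw [intervalIntegral.integral_sub ((hc w hw).intervalIntegrable _ _)
      ((hc w' hw').intervalIntegrable _ _)]
    rfl
  have h2 : |op d φ w s - op d φ w' s| ≤
      ∫ t in (0 : ℝ)..s, L * D / l * Real.exp (l * t) := by
    rw [h1, ← Real.norm_eq_abs]
    refine intervalIntegral.norm_integral_le_of_norm_le hs ?_ ?_
    · refine Eventually.of_forall fun t ht => ?_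
      rw [Real.norm_eq_abs]
      exact avg_sub_le hφ hL hL0 hl hw hw' ht.1.le
        (fun r hr => hD r ⟨hr.1, hr.2.trans ht.2⟩)
    · apply Continuous.intervalIntegrable; fun_prop
  have h3 : ∫ t in (0 : ℝ)..s, L * D / l * Real.exp (l * t) =
      L * D / l * ((Real.exp (l * s) - 1) / l) := by
    have hd : ∀ t ∈ uIcc (0 : ℝ) s, HasDerivAt (fun t => L * D / l * (Real.exp (l * t) / l))
        (L * D / l * Real.exp (l * t)) t := by
      intro t _
      have h4 : HasDerivAt (fun t : ℝ => l * t) l t := by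
        simpa using (hasDerivAt_id t).const_mul l
      have h5 := (h4.exp.div_const l).const_mul (L * D / l)
      have h6 : Real.exp (l * t) * l / l = Real.exp (l * t) := by field_simp
      rwa [h6] at h5
    rw [intervalIntegral.integral_eq_sub_of_hasDerivAt hd]
    · simp
      ring
    · apply Continuous.intervalIntegrable; fun_prop
  rw [h3] at h2
  refine h2.trans ?_
  have h4 : 0 ≤ L / l ^ 2 * D := by positivity
  calc L * D / l * ((Real.exp (l * s) - 1) / l) = L / l ^ 2 * D * (Real.exp (l * s) - 1) := by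
        field_simp
    _ ≤ L / l ^ 2 * D * Real.exp (l * s) := by
        apply mul_le_mul_of_nonneg_left _ h4; linarith

/-- uniqueness on `[0,T]` -/
theorem op_unique {d : ℕ} {φ w w' : ℝ → ℝ} {L A T : ℝ} (hφ : Continuous φ)
    (hL : ∀ y y', |φ y - φ y'| ≤ L * |y - y'|) (hL0 : 0 ≤ L)
    (hw : Continuous w) (hw' : Continuous w') (hT : 0 ≤ T)
    (h : ∀ s ∈ Icc 0 T, w s = A - op d φ w s) (h' : ∀ s ∈ Icc 0 T, w' s = A - op d φ w' s) :
    ∀ s ∈ Icc 0 T, w s = w' s := by
  set l : ℝ := 2 * L + 1 with hl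
  have hl0 : 0 < l := by positivity
  have hL2 : L / l ^ 2 ≤ 1 / 2 := by
    rw [div_le_div_iff₀ (by positivity) (by norm_num), hl]
    nlinarith
  have hcont : ContinuousOn (fun s => |w s - w' s| * Real.exp (-(l * s))) (Icc 0 T) := by
    apply Continuous.continuousOn; fun_prop
  obtain ⟨s₀, hs₀, hmax⟩ := isCompact_Icc.exists_isMaxOn (nonempty_Icc.2 hT) hcont
  set D := |w s₀ - w' s₀| * Real.exp (-(l * s₀)) with hD
  have hbd : ∀ r ∈ Icc 0 T, |w r - w' r| ≤ D * Real.exp (l * r) := by
    intro r hr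
    have h1 : |w r - w' r| * Real.exp (-(l * r)) ≤ D := hmax hr
    calc |w r - w' r| = |w r - w' r| * Real.exp (-(l * r)) * Real.exp (l * r) := by
          rw [mul_assoc, ← Real.exp_add]; simp
      _ ≤ D * Real.exp (l * r) := mul_le_mul_of_nonneg_right h1 (Real.exp_pos _).le
  have h1 := op_sub_le (d := d) hφ hL hL0 hl0 hw hw' hs₀.1
    (fun r hr => hbd r ⟨hr.1, hr.2.trans hs₀.2⟩)
  have h2 : |w s₀ - w' s₀| ≤ L / l ^ 2 * D * Real.exp (l * s₀) := by
    rw [h s₀ hs₀, h' s₀ hs₀]
    have : A - op d φ w s₀ - (A - op d φ w' s₀) = -(op d φ w s₀ - op d φ w' s₀) := by ring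
    rw [this, abs_neg]
    exact h1
  have hD0 : 0 ≤ D := by positivity
  have h3 : D ≤ L / l ^ 2 * D := by
    calc D = |w s₀ - w' s₀| * Real.exp (-(l * s₀)) := hD
      _ ≤ L / l ^ 2 * D * Real.exp (l * s₀) * Real.exp (-(l * s₀)) :=
          mul_le_mul_of_nonneg_right h2 (Real.exp_pos _).le
      _ = L / l ^ 2 * D := by rw [mul_assoc, ← Real.exp_add]; simp
  have h4 : D ≤ 1 / 2 * D := h3.trans (mul_le_mul_of_nonneg_right hL2 hD0)
  have h5 : D = 0 := by linarith
  intro s hs
  have := hbd s hs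
  rw [h5, zero_mul] at this
  have h6 := abs_nonpos_iff.1 this
  linarith

/-- existence on the half line with Lipschitz dependence on the initial value -/
theorem exists_family (d : ℕ) {φ : ℝ → ℝ} {L B : ℝ} (hφ : Continuous φ)
    (hL : ∀ y y', |φ y - φ y'| ≤ L * |y - y'|) (hL0 : 0 ≤ L) (hB : ∀ y, |φ y| ≤ B) :
    ∃ (W : ℝ → ℝ → ℝ) (l : ℝ), (∀ A, Continuous (W A)) ∧
      (∀ A s, 0 ≤ s → W A s = A - op d φ (W A) s) ∧
      (∀ A A' s, |W A s - W A' s| ≤ 2 * Real.exp (l * s) * |A - A'|) := by
  have hB0 : 0 ≤ B := (abs_nonneg _).trans (hB 0)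
  set l : ℝ := 2 * L + 1 with hl
  have hl0 : 0 < l := by positivity
  have hl1 : 1 ≤ l := by linarith
  have hL2 : L / l ^ 2 ≤ 1 / 2 := by
    rw [div_le_div_iff₀ (by positivity) (by norm_num), hl]
    nlinarith
  let c : (ℝ → ℝ) → ℝ → ℝ := fun u t => Real.exp (l * t) * u t
  have hcc : ∀ u : ℝ → ℝ, Continuous u → Continuous (c u) := by
    intro u hu
    have : Continuous fun t : ℝ => Real.exp (l * t) := by fun_prop
    exact this.mul hu
  have hmax : Continuous fun t : ℝ => max t 0 := continuous_id.max continuous_const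
  let Φ : ℝ → (ℝ → ℝ) → ℝ → ℝ := fun A u t =>
    Real.exp (-(l * max t 0)) * (A - op d φ (c u) (max t 0))
  have hΦc : ∀ A, ∀ u : ℝ → ℝ, Continuous u → Continuous (Φ A u) := by
    intro A u hu
    have h1 : Continuous fun t : ℝ => Real.exp (-(l * max t 0)) := by fun_prop
    exact h1.mul (continuous_const.sub ((continuous_op hφ (hcc u hu)).comp hmax))
  have hopb : ∀ v : ℝ → ℝ, Continuous v → ∀ s, 0 ≤ s → |op d φ v s| ≤ B * (s * s) := by
    intro v hv s hs
    have h := intervalIntegral.norm_integral_le_of_norm_le_const (a := (0 : ℝ)) (b := s)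
      (C := s * B) (f := fun t => t * avg d φ v t) ?_
    · rw [sub_zero, abs_of_nonneg hs, Real.norm_eq_abs] at h
      calc |op d φ v s| ≤ s * B * s := h
        _ = B * (s * s) := by ring
    · intro t ht
      rw [uIoc_of_le hs] at ht
      rw [norm_mul, Real.norm_eq_abs, Real.norm_eq_abs, abs_of_pos ht.1]
      exact mul_le_mul ht.2 (abs_avg_le hB t) (abs_nonneg _) hs
  have hΦb : ∀ A, ∀ u : ℝ → ℝ, Continuous u → ∀ t, ‖Φ A u t‖ ≤ |A| + 2 * B := by
    intro A u hu t
    have hs : 0 ≤ max t 0 := le_max_right _ _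
    set s := max t 0 with hsdef
    show ‖Real.exp (-(l * s)) * (A - op d φ (c u) s)‖ ≤ _
    rw [norm_mul, Real.norm_eq_abs, Real.norm_eq_abs, abs_of_pos (Real.exp_pos _)]
    have h1 : |A - op d φ (c u) s| ≤ |A| + B * (s * s) :=
      (abs_sub _ _).trans (by linarith [hopb (c u) (hcc u hu) s hs])
    have h2 : Real.exp (-(l * s)) ≤ 1 := Real.exp_le_one_iff.2 (by nlinarith)
    have h3 : Real.exp (-(l * s)) * (s * s) ≤ 2 := by
      have h4 : s * s ≤ 2 * Real.exp (l * s) := by
        have h5 : s ≤ l * s := by nlinarith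
        have h6 := Real.quadratic_le_exp_of_nonneg (x := s) hs
        have h7 : Real.exp s ≤ Real.exp (l * s) := Real.exp_le_exp.2 h5
        nlinarith
      calc Real.exp (-(l * s)) * (s * s) ≤ Real.exp (-(l * s)) * (2 * Real.exp (l * s)) :=
            mul_le_mul_of_nonneg_left h4 (Real.exp_pos _).le
        _ = 2 * (Real.exp (-(l * s)) * Real.exp (l * s)) := by ring
        _ = 2 := by rw [← Real.exp_add]; simp
    calc Real.exp (-(l * s)) * |A - op d φ (c u) s|
        ≤ Real.exp (-(l * s)) * (|A| + B * (s * s)) :=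
          mul_le_mul_of_nonneg_left h1 (Real.exp_pos _).le
      _ = Real.exp (-(l * s)) * |A| + B * (Real.exp (-(l * s)) * (s * s)) := by ring
      _ ≤ 1 * |A| + B * 2 := by
          gcongr
      _ = |A| + 2 * B := by ring
  let Ψ : ℝ → BoundedContinuousFunction ℝ ℝ → BoundedContinuousFunction ℝ ℝ := fun A u =>
    BoundedContinuousFunction.ofNormedAddCommGroup (Φ A u) (hΦc A u u.continuous) _
      (hΦb A u u.continuous)
  have hΨ : ∀ A, ContractingWith (1 / 2) (Ψ A) := by
    intro A
    refine ⟨by rw [← NNReal.coe_lt_coe]; norm_num, ?_⟩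
    apply LipschitzWith.of_dist_le_mul
    intro u v
    rw [BoundedContinuousFunction.dist_le (by positivity)]
    intro t
    have hs : 0 ≤ max t 0 := le_max_right _ _
    set s := max t 0 with hsdef
    show dist (Real.exp (-(l * s)) * (A - op d φ (c u) s))
      (Real.exp (-(l * s)) * (A - op d φ (c v) s)) ≤ _
    rw [Real.dist_eq, ← mul_sub, abs_mul, abs_of_pos (Real.exp_pos _)]
    have hcd : ∀ r ∈ Icc 0 s, |c u r - c v r| ≤ dist u v * Real.exp (l * r) := by
      intro r _
      have h1 : c u r - c v r = Real.exp (l * r) * (u r - v r) := by simp only [c]; ring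
      rw [h1, abs_mul, abs_of_pos (Real.exp_pos _), mul_comm]
      apply mul_le_mul_of_nonneg_right _ (Real.exp_pos _).le
      rw [← Real.dist_eq]
      exact BoundedContinuousFunction.dist_coe_le_dist r
    have h1 := op_sub_le (d := d) hφ hL hL0 hl0 (hcc u u.continuous) (hcc v v.continuous) hs hcd
    have h2 : A - op d φ (c u) s - (A - op d φ (c v) s) =
        -(op d φ (c u) s - op d φ (c v) s) := by ring
    rw [h2, abs_neg]
    calc Real.exp (-(l * s)) * |op d φ (c u) s - op d φ (c v) s|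
        ≤ Real.exp (-(l * s)) * (L / l ^ 2 * dist u v * Real.exp (l * s)) :=
          mul_le_mul_of_nonneg_left h1 (Real.exp_pos _).le
      _ = L / l ^ 2 * dist u v * (Real.exp (-(l * s)) * Real.exp (l * s)) := by ring
      _ = L / l ^ 2 * dist u v := by rw [← Real.exp_add]; simp
      _ ≤ ((1 / 2 : NNReal) : ℝ) * dist u v := by
          push_cast
          exact mul_le_mul_of_nonneg_right hL2 dist_nonneg
  let U : ℝ → BoundedContinuousFunction ℝ ℝ := fun A => (hΨ A).fixedPoint
  have hU : ∀ A t, 0 ≤ t → U A t = Real.exp (-(l * t)) * (A - op d φ (c (U A)) t) := by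
    intro A t ht
    have h1 : Ψ A (U A) = U A := (hΨ A).fixedPoint_isFixedPt
    have h2 : U A t = Φ A (U A) t := by
      conv_lhs => rw [← h1]
      rfl
    rw [h2]
    simp only [Φ]
    rw [max_eq_left ht]
  have hUd : ∀ A A', dist (U A) (U A') ≤ 2 * |A - A'| := by
    intro A A'
    have h1 := (hΨ A).fixedPoint_lipschitz_in_map (hΨ A') (C := |A - A'|) ?_
    · refine h1.trans (le_of_eq ?_)
      push_cast
      ring
    · intro u
      rw [BoundedContinuousFunction.dist_le (abs_nonneg _)]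
      intro t
      have hs : 0 ≤ max t 0 := le_max_right _ _
      show dist (Real.exp (-(l * max t 0)) * (A - op d φ (c u) (max t 0)))
        (Real.exp (-(l * max t 0)) * (A' - op d φ (c u) (max t 0))) ≤ _
      rw [Real.dist_eq, ← mul_sub, abs_mul, abs_of_pos (Real.exp_pos _)]
      have h2 : Real.exp (-(l * max t 0)) ≤ 1 := Real.exp_le_one_iff.2 (by nlinarith)
      have h3 : A - op d φ (c u) (max t 0) - (A' - op d φ (c u) (max t 0)) = A - A' := by ring
      rw [h3]
      calc Real.exp (-(l * max t 0)) * |A - A'| ≤ 1 * |A - A'| :=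
            mul_le_mul_of_nonneg_right h2 (abs_nonneg _)
        _ = |A - A'| := one_mul _
  refine ⟨fun A => c (U A), l, fun A => hcc _ (U A).continuous, ?_, ?_⟩
  · intro A s hs
    show Real.exp (l * s) * U A s = _
    rw [hU A s hs, ← mul_assoc, ← Real.exp_add]
    simp
  · intro A A' s
    show |Real.exp (l * s) * U A s - Real.exp (l * s) * U A' s| ≤ _
    rw [← mul_sub, abs_mul, abs_of_pos (Real.exp_pos _)]
    have h1 : |U A s - U A' s| ≤ 2 * |A - A'| := by
      rw [← Real.dist_eq]
      exact (BoundedContinuousFunction.dist_coe_le_dist s).trans (hUd A A')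
    calc Real.exp (l * s) * |U A s - U A' s| ≤ Real.exp (l * s) * (2 * |A - A'|) :=
          mul_le_mul_of_nonneg_left h1 (Real.exp_pos _).le
      _ = 2 * Real.exp (l * s) * |A - A'| := by ring

end QGB
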