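import Pool.Agent.QGB.Family

/-!
# The phase plane

For a positive solution `w` put `v = log w`, `p = v'/s`, `y = s p`; the energy and the angle of
`(v,y)`.
-/

namespace QGB

open Set Filter Topology MeasureTheory intervalIntegral

/-- `v = log w` -/
noncomputable def vv (w : ℝ → ℝ) (s : ℝ) : ℝ := Real.log (w s)

/-- `p = v'/s` -/
noncomputable def pp (d : ℕ) (w : ℝ → ℝ) (s : ℝ) : ℝ := -(avg d phi w s) / w s

/-- `y = v'` -/
noncomputable def yy (d : ℕ) (w : ℝ → ℝ) (s : ℝ) : ℝ := s * pp d w s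

section

variable {d : ℕ} {A T : ℝ} {w : ℝ → ℝ}

theorem IsSol.continuousOn_vv (h : IsSol d A T w) : ContinuousOn (vv w) (Icc 0 T) :=
  h.cont.continuousOn.log (fun s hs => (h.pos s hs).ne')

theorem IsSol.continuousOn_pp (h : IsSol d A T w) : ContinuousOn (pp d w) (Icc 0 T) := by
  have hgc : Continuous (avg d phi w) := continuous_avg continuous_phi h.cont
  exact hgc.neg.continuousOn.div h.cont.continuousOn (fun s hs => (h.pos s hs).ne')

theorem IsSol.continuousOn_yy (h : IsSol d A T w) : ContinuousOn (yy d w) (Icc 0 T) :=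
  continuousOn_id.mul h.continuousOn_pp

theorem IsSol.hasDerivAt_vv (h : IsSol d A T w) {s : ℝ} (hs : s ∈ Ioo 0 T) :
    HasDerivAt (vv w) (yy d w s) s := by
  have hw0 : 0 < w s := h.pos s ⟨hs.1.le, hs.2.le⟩
  refine ((h.hasDerivAt hs).log hw0.ne').congr_deriv ?_
  simp only [yy, pp]
  ring

theorem IsSol.hasDerivAt_pp (h : IsSol d A T w) {s : ℝ} (hs : s ∈ Ioo 0 T) :
    HasDerivAt (pp d w) (-(vv w s + (d + 1) * pp d w s + s ^ 2 * pp d w s ^ 2) / s) s := by
  have hw0 : 0 < w s := h.pos s ⟨hs.1.le, hs.2.le⟩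
  have hs0 : 0 < s := hs.1
  have h2 : HasDerivAt (avg d phi w) ((phi (w s) - (d + 1) * avg d phi w s) / s) s :=
    hasDerivAt_avg continuous_phi h.cont hs0
  refine (h2.neg.div (h.hasDerivAt hs) hw0.ne').congr_deriv ?_
  simp only [pp, vv, phi, Pi.neg_apply]
  field_simp
  ring

theorem IsSol.hasDerivAt_yy (h : IsSol d A T w) {s : ℝ} (hs : s ∈ Ioo 0 T) :
    HasDerivAt (yy d w) (-vv w s - yy d w s ^ 2 - d * pp d w s) s := by
  have hs0 : s ≠ 0 := hs.1.ne'
  refine ((hasDerivAt_id s).mul (h.hasDerivAt_pp hs)).congr_deriv ?_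
  simp only [yy, id]
  field_simp
  ring

end

/-- the energy -/
noncomputable def HH (v y : ℝ) : ℝ := Real.exp (2 * v) * (y ^ 2 / 2 + v / 2 - 1 / 4) + 1 / 4

theorem f_nonneg (v : ℝ) : 0 ≤ Real.exp (2 * v) * (v / 2 - 1 / 4) + 1 / 4 := by
  have h1 := Real.add_one_le_exp (-(2 * v))
  have h2 : Real.exp (2 * v) * Real.exp (-(2 * v)) = 1 := by rw [← Real.exp_add]; simp
  have h3 := mul_le_mul_of_nonneg_left h1 (Real.exp_pos (2 * v)).le
  nlinarith

theorem f_pos {v : ℝ} (hv : v ≠ 0) : 0 < Real.exp (2 * v) * (v / 2 - 1 / 4) + 1 / 4 := by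
  have h0 : -(2 * v) ≠ 0 := by
    intro h
    apply hv
    linarith
  have h1 := Real.add_one_lt_exp h0
  have h2 : Real.exp (2 * v) * Real.exp (-(2 * v)) = 1 := by rw [← Real.exp_add]; simp
  have h3 := mul_lt_mul_of_pos_left h1 (Real.exp_pos (2 * v))
  nlinarith

theorem HH_ge (v y : ℝ) : Real.exp (2 * v) * y ^ 2 / 2 ≤ HH v y := by
  have := f_nonneg v
  unfold HH
  linarith

theorem HH_ge' (v y : ℝ) : Real.exp (2 * v) * (v / 2 - 1 / 4) + 1 / 4 ≤ HH v y := by
  have : 0 ≤ Real.exp (2 * v) * y ^ 2 / 2 := by positivity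
  unfold HH
  linarith

theorem HH_nonneg (v y : ℝ) : 0 ≤ HH v y := (f_nonneg v).trans (HH_ge' v y)

theorem abs_v_lt {v y : ℝ} (h : HH v y < 1 / 16) : |v| < 1 / 2 := by
  have h1 := (HH_ge' v y).trans_lt h
  have hE : 0 < Real.exp (2 * v) := Real.exp_pos _
  rw [abs_lt]
  constructor
  · by_contra hc
    push Not at hc
    -- `t = -2v ≥ 1`
    have h2 := Real.add_one_le_exp (-(2 * v) - 1)
    have h3 : Real.exp (2 * v) * Real.exp (-(2 * v) - 1) * Real.exp 1 = 1 := by
      rw [← Real.exp_add, ← Real.exp_add]; ring_nf; simp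
    have h4 : 8 / 3 ≤ Real.exp 1 := by
      have := Real.exp_one_gt_d9
      linarith
    have h5 : Real.exp (2 * v) * (-(2 * v)) ≤ Real.exp (2 * v) * Real.exp (-(2 * v) - 1) :=
      mul_le_mul_of_nonneg_left (by linarith) hE.le
    have h6 : 0 < Real.exp (2 * v) * Real.exp (-(2 * v) - 1) := by positivity
    have h7 : Real.exp (2 * v) * Real.exp (-(2 * v) - 1) ≤ 3 / 8 := by nlinarith
    nlinarith
  · by_contra hc
    push Not at hc
    have : 0 ≤ Real.exp (2 * v) * (v / 2 - 1 / 4) := mul_nonneg hE.le (by linarith)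
    linarith

theorem HH_zero_le {v : ℝ} (hv : v ≤ 1 / 2) : HH v 0 ≤ v ^ 2 := by
  have h1 := Real.add_one_le_exp (2 * v)
  have h2 : 0 ≤ 1 / 4 - v / 2 := by linarith
  have h3 := mul_le_mul_of_nonneg_right h1 h2
  unfold HH
  nlinarith

section

variable {d : ℕ} {A T : ℝ} {w : ℝ → ℝ}

/-- the energy along a solution -/
noncomputable def EE (d : ℕ) (w : ℝ → ℝ) (s : ℝ) : ℝ := HH (vv w s) (yy d w s)

theorem IsSol.continuousOn_EE (h : IsSol d A T w) : ContinuousOn (EE d w) (Icc 0 T) := by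
  have h1 := h.continuousOn_vv
  have h2 := h.continuousOn_yy
  unfold EE HH
  fun_prop

theorem IsSol.hasDerivAt_EE (h : IsSol d A T w) {s : ℝ} (hs : s ∈ Ioo 0 T) :
    HasDerivAt (EE d w) (-(d * s * pp d w s ^ 2 * Real.exp (2 * vv w s))) s := by
  have h1 := h.hasDerivAt_vv hs
  have h2 := h.hasDerivAt_yy hs
  have h3 := (((h1.const_mul 2).exp).mul ((((h2.pow 2).div_const 2).add
    (h1.div_const 2)).sub_const (1 / 4))).add_const (1 / 4)
  refine h3.congr_deriv ?_
  simp only [Pi.add_apply, Pi.pow_apply]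
  have : yy d w s = s * pp d w s := rfl
  push_cast
  rw [this]
  simp
  ring

theorem IsSol.EE_anti (h : IsSol d A T w) : AntitoneOn (EE d w) (Icc 0 T) := by
  apply antitoneOn_of_hasDerivWithinAt_nonpos (convex_Icc 0 T) h.continuousOn_EE
    (f' := fun s => -(d * s * pp d w s ^ 2 * Real.exp (2 * vv w s)))
  · intro s hs
    rw [interior_Icc] at hs
    exact (h.hasDerivAt_EE hs).hasDerivWithinAt
  · intro s hs
    rw [interior_Icc] at hs
    have : 0 ≤ (d : ℝ) * s * pp d w s ^ 2 * Real.exp (2 * vv w s) := by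
      have := hs.1.le
      positivity
    linarith

theorem IsSol.EE_mono (h : IsSol d A T w) :
    MonotoneOn (fun s => s ^ (2 * d) * EE d w s) (Icc 0 T) := by
  apply monotoneOn_of_hasDerivWithinAt_nonneg (convex_Icc 0 T)
    ((continuous_pow (2 * d)).continuousOn.mul h.continuousOn_EE)
    (f' := fun s => s ^ (2 * d) / s * (2 * d * (EE d w s) -
      d * s ^ 2 * pp d w s ^ 2 * Real.exp (2 * vv w s)))
  · intro s hs
    rw [interior_Icc] at hs
    have hs0 : s ≠ 0 := hs.1.ne'
    refine ((hasDerivAt_pow (2 * d) s).mul (h.hasDerivAt_EE hs)).hasDerivWithinAt.congr_deriv ?_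
    rcases Nat.eq_zero_or_pos d with hd | hd
    · subst hd
      simp
    · have h1 : (s : ℝ) ^ (2 * d) = s ^ (2 * d - 1) * s := by
        rw [← pow_succ]
        congr 1
        omega
      rw [h1]
      push_cast
      field_simp
      ring
  · intro s hs
    rw [interior_Icc] at hs
    have hs0 : 0 < s := hs.1
    apply mul_nonneg
    · positivity
    · have h1 := HH_ge (vv w s) (yy d w s)
      have h2 : yy d w s = s * pp d w s := rfl
      have h3 : EE d w s = HH (vv w s) (yy d w s) := rfl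
      rw [← h3, h2] at h1
      have h4 : (0 : ℝ) ≤ d := by positivity
      nlinarith [mul_le_mul_of_nonneg_left h1 h4]

theorem IsSol.vv_zero (h : IsSol d A T w) (hT : 0 ≤ T) : vv w 0 = Real.log A := by
  rw [vv, h.zero hT]

theorem yy_zero : yy d w 0 = 0 := by simp [yy]

/-- the solution never reaches the rest point -/
theorem IsSol.EE_pos (h : IsSol d A T w) (hA : 1 < A) {s : ℝ} (hs : s ∈ Icc 0 T) :
    0 < EE d w s := by
  have hT : 0 ≤ T := hs.1.trans hs.2
  have h0 : 0 < EE d w 0 := by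
    have h1 := f_pos (v := Real.log A) (Real.log_pos hA).ne'
    rw [← h.vv_zero hT] at h1
    exact h1.trans_le (HH_ge' _ _)
  rcases hs.1.eq_or_lt with h1 | h1
  · rw [← h1]
    exact h0
  · by_contra hc
    push Not at hc
    have h2 : ∀ r ∈ Ioc 0 s, EE d w r ≤ 0 := by
      intro r hr
      have h3 := h.EE_mono ⟨hr.1.le, hr.2.trans hs.2⟩ hs hr.2
      simp only at h3
      have h4 : s ^ (2 * d) * EE d w s ≤ 0 :=
        mul_nonpos_of_nonneg_of_nonpos (pow_nonneg hs.1 _) hc
      by_contra h5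
      push Not at h5
      have := mul_pos (pow_pos hr.1 (2 * d)) h5
      linarith
    have h3 : ContinuousOn (EE d w) (Icc 0 s) := h.continuousOn_EE.mono
      (Icc_subset_Icc_right hs.2)
    have h4 : Icc 0 s ⊆ Icc 0 s ∩ (EE d w) ⁻¹' (Iic 0) := by
      have h5 : IsClosed (Icc 0 s ∩ (EE d w) ⁻¹' (Iic 0)) :=
        h3.preimage_isClosed_of_isClosed isClosed_Icc isClosed_Iic
      have h6 : Ioc 0 s ⊆ Icc 0 s ∩ (EE d w) ⁻¹' (Iic 0) :=
        fun r hr => ⟨⟨hr.1.le, hr.2⟩, h2 r hr⟩
      have h7 := closure_minimal h6 h5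
      rwa [closure_Ioc h1.ne] at h7
    have h5 : EE d w 0 ≤ 0 := (h4 ⟨le_rfl, h1.le⟩).2
    linarith

theorem IsSol.rho_pos (h : IsSol d A T w) (hA : 1 < A) {s : ℝ} (hs : s ∈ Icc 0 T) :
    0 < vv w s ^ 2 + yy d w s ^ 2 := by
  have h1 := h.EE_pos hA hs
  by_contra hc
  push Not at hc
  have h2 : vv w s = 0 := by
    have := sq_nonneg (yy d w s)
    have h3 : vv w s ^ 2 ≤ 0 := by linarith
    exact pow_eq_zero_iff (two_ne_zero) |>.1 (le_antisymm h3 (sq_nonneg _))
  have h3 : yy d w s = 0 := by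
    have := sq_nonneg (vv w s)
    have h3 : yy d w s ^ 2 ≤ 0 := by linarith
    exact pow_eq_zero_iff (two_ne_zero) |>.1 (le_antisymm h3 (sq_nonneg _))
  have h4 : EE d w s = 0 := by
    simp only [EE, h2, h3, HH]
    norm_num
  linarith

end

/-- the angular velocity -/
noncomputable def kap (d : ℕ) (s v p : ℝ) : ℝ :=
  -1 - v * ((s * p) ^ 2 + d * p) / (v ^ 2 + (s * p) ^ 2)

section

variable {d : ℕ} {A T : ℝ} {w : ℝ → ℝ}

/-- `K` is a continuous extension of the angular velocity along the solution `w` -/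
structure IsAng (d : ℕ) (T : ℝ) (w K : ℝ → ℝ) : Prop where
  cont : Continuous K
  eq : ∀ s ∈ Icc 0 T, K s = kap d s (vv w s) (pp d w s)

/-- the angle -/
noncomputable def ang (K : ℝ → ℝ) (s : ℝ) : ℝ := ∫ r in (0 : ℝ)..s, K r

theorem hasDerivAt_ang {K : ℝ → ℝ} (hK : Continuous K) (s : ℝ) : HasDerivAt (ang K) (K s) s :=
  intervalIntegral.integral_hasDerivAt_right (hK.intervalIntegrable _ _)
    (hK.stronglyMeasurableAtFilter _ _) hK.continuousAt

theorem continuous_ang {K : ℝ → ℝ} (hK : Continuous K) : Continuous (ang K) :=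
  continuous_iff_continuousAt.2 fun s => (hasDerivAt_ang hK s).continuousAt

/-- the direction of `(v,y)` is the angle -/
theorem IsSol.cross_zero (h : IsSol d A T w) (hA : 1 < A) {K : ℝ → ℝ} (hK : IsAng d T w K) :
    ∀ s ∈ Icc 0 T, -(vv w s) * Real.sin (ang K s) + yy d w s * Real.cos (ang K s) = 0 := by
  intro s₁ hs₁
  have hT : 0 ≤ T := hs₁.1.trans hs₁.2
  -- the rate
  set cl : ℝ → ℝ := fun r => max 0 (min r T) with hcl
  have hclc : Continuous cl := by fun_prop
  have hclm : ∀ r, cl r ∈ Icc 0 T := fun r => clamp_mem hT r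
  have hcle : ∀ r ∈ Icc 0 T, cl r = r := fun r hr => by
    simp [hcl, min_eq_left hr.2, max_eq_right hr.1]
  set α : ℝ → ℝ := fun s => -(yy d w s) * (yy d w s ^ 2 + d * pp d w s) /
    (vv w s ^ 2 + yy d w s ^ 2) with hα
  have hαc : ContinuousOn α (Icc 0 T) := by
    have h1 := h.continuousOn_vv
    have h2 := h.continuousOn_yy
    have h3 := h.continuousOn_pp
    apply ContinuousOn.div
    · fun_prop
    · fun_prop
    · intro s hs
      exact (h.rho_pos hA hs).ne'
  have hα' : Continuous fun r => α (cl r) := hαc.comp_continuous hclc hclm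
  set Q : ℝ → ℝ := ang (fun r => α (cl r)) with hQ
  have hQd : ∀ s, HasDerivAt Q (α (cl s)) s := fun s => hasDerivAt_ang hα' s
  have hθd : ∀ s, HasDerivAt (ang K) (K s) s := fun s => hasDerivAt_ang hK.cont s
  set e : ℝ → ℝ := fun s => -(vv w s) * Real.sin (ang K s) + yy d w s * Real.cos (ang K s)
    with he
  have hec : ContinuousOn (fun s => e s * Real.exp (-(Q s))) (Icc 0 T) := by
    have h1 := h.continuousOn_vv
    have h2 := h.continuousOn_yy
    have h3 : Continuous (ang K) := continuous_ang hK.cont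
    have h4 : Continuous Q := continuous_ang hα'
    fun_prop
  have hed : ∀ s ∈ interior (Icc 0 T),
      HasDerivWithinAt (fun s => e s * Real.exp (-(Q s))) 0 (interior (Icc 0 T)) s := by
    intro s hs
    rw [interior_Icc] at hs
    have hsI : s ∈ Icc 0 T := ⟨hs.1.le, hs.2.le⟩
    have hρ := (h.rho_pos hA hsI).ne'
    have h1 := h.hasDerivAt_vv hs
    have h2 := h.hasDerivAt_yy hs
    have h3 := ((h1.neg.mul (hθd s).sin).add (h2.mul (hθd s).cos)).mul ((hQd s).neg.exp)
    refine h3.hasDerivWithinAt.congr_deriv ?_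
    rw [hcle s hsI, hK.eq s hsI]
    simp only [Pi.neg_apply, Pi.mul_apply, Pi.add_apply]
    have h4 : yy d w s = s * pp d w s := rfl
    have h5 : kap d s (vv w s) (pp d w s) = -1 - vv w s * (yy d w s ^ 2 + d * pp d w s) /
        (vv w s ^ 2 + yy d w s ^ 2) := rfl
    rw [h5]
    simp only [hα]
    generalize vv w s = v at *
    generalize yy d w s = y at *
    generalize pp d w s = p at *
    field_simp
    ring
  have hconst : ∀ s ∈ Icc 0 T, e s * Real.exp (-(Q s)) = e 0 * Real.exp (-(Q 0)) := by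
    intro s hs
    have h1 : AntitoneOn (fun s => e s * Real.exp (-(Q s))) (Icc 0 T) :=
      antitoneOn_of_hasDerivWithinAt_nonpos (convex_Icc 0 T) hec hed (fun _ _ => le_rfl)
    have h2 : MonotoneOn (fun s => e s * Real.exp (-(Q s))) (Icc 0 T) :=
      monotoneOn_of_hasDerivWithinAt_nonneg (convex_Icc 0 T) hec hed (fun _ _ => le_rfl)
    exact le_antisymm (h1 ⟨le_rfl, hT⟩ hs hs.1) (h2 ⟨le_rfl, hT⟩ hs hs.1)
  have h0 : e 0 = 0 := by
    have : ang K 0 = 0 := by simp [ang]
    simp [he, this, yy]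
  have h1 := hconst s₁ hs₁
  rw [h0, zero_mul] at h1
  exact (mul_eq_zero.1 h1).resolve_right (Real.exp_pos _).ne'

/-- polar coordinates -/
theorem IsSol.polar (h : IsSol d A T w) (hA : 1 < A) {K : ℝ → ℝ} (hK : IsAng d T w K)
    {s : ℝ} (hs : s ∈ Icc 0 T) :
    ∃ c, 0 < c ∧ vv w s = c * Real.cos (ang K s) ∧ yy d w s = c * Real.sin (ang K s) := by
  have hT : 0 ≤ T := hs.1.trans hs.2
  set c : ℝ → ℝ := fun s => vv w s * Real.cos (ang K s) + yy d w s * Real.sin (ang K s) with hc
  have hcc : ContinuousOn c (Icc 0 T) := by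
    have h1 := h.continuousOn_vv
    have h2 := h.continuousOn_yy
    have h3 : Continuous (ang K) := continuous_ang hK.cont
    fun_prop
  have hv : ∀ s ∈ Icc 0 T, vv w s = c s * Real.cos (ang K s) := by
    intro s hs
    have h1 := h.cross_zero hA hK s hs
    have h2 := Real.sin_sq_add_cos_sq (ang K s)
    simp only [hc]
    linear_combination (-Real.sin (ang K s)) * h1 - vv w s * h2
  have hy : ∀ s ∈ Icc 0 T, yy d w s = c s * Real.sin (ang K s) := by
    intro s hs
    have h1 := h.cross_zero hA hK s hs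
    have h2 := Real.sin_sq_add_cos_sq (ang K s)
    simp only [hc]
    linear_combination (Real.cos (ang K s)) * h1 - yy d w s * h2
  have hne : ∀ s ∈ Icc 0 T, c s ≠ 0 := by
    intro s hs h0
    have h1 := h.rho_pos hA hs
    rw [hv s hs, hy s hs, h0] at h1
    simp at h1
  have h0 : 0 < c 0 := by
    have : ang K 0 = 0 := by simp [ang]
    simp only [hc, this, h.vv_zero hT, Real.cos_zero, mul_one, Real.sin_zero, mul_zero, add_zero]
    exact Real.log_pos hA
  refine ⟨c s, ?_, hv s hs, hy s hs⟩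
  by_contra hcon
  push Not at hcon
  have h1 : (0 : ℝ) ∈ c '' (Icc 0 s) :=
    intermediate_value_Icc' hs.1 (hcc.mono (Icc_subset_Icc_right hs.2)) ⟨hcon, h0.le⟩
  obtain ⟨r, hr, hr0⟩ := h1
  exact hne r ⟨hr.1, hr.2.trans hs.2⟩ hr0

/-- the angle is not positive -/
theorem IsSol.ang_nonpos (h : IsSol d A T w) (hA : 1 < A) {K : ℝ → ℝ} (hK : IsAng d T w K) :
    ∀ s ∈ Icc 0 T, ang K s ≤ 0 := by
  intro s hs
  have hT : 0 ≤ T := hs.1.trans hs.2
  refine image_le_of_deriv_right_lt_deriv_boundary' (f := ang K) (f' := K) (a := 0) (b := T)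
    (B := fun _ => 0) (B' := fun _ => 0) (continuous_ang hK.cont).continuousOn
    (fun x _ => (hasDerivAt_ang hK.cont x).hasDerivWithinAt) (by simp [ang])
    continuousOn_const (fun x _ => hasDerivWithinAt_const _ _ _) ?_ hs
  intro x hx h0
  have hxI : x ∈ Icc 0 T := ⟨hx.1, hx.2.le⟩
  rw [hK.eq x hxI]
  rcases hx.1.eq_or_lt with h1 | h1
  · subst h1
    have h2 : vv w 0 = Real.log A := h.vv_zero hT
    have h3 : pp d w 0 = -(Real.log A) / (d + 1) := by
      rw [pp, avg_zero, h.zero hT, phi]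
      have : A ≠ 0 := by linarith
      field_simp
    have h4 : 0 < Real.log A := Real.log_pos hA
    rw [h2, h3, kap]
    have hd : (0 : ℝ) < d + 1 := by positivity
    have h5 : Real.log A * ((0 * (-(Real.log A) / (d + 1))) ^ 2 +
        d * (-(Real.log A) / (d + 1))) / (Real.log A ^ 2 + (0 * (-(Real.log A) / (d + 1))) ^ 2) =
        -(d / (d + 1)) := by
      field_simp
      ring
    rw [h5]
    have h6 : (d : ℝ) / (d + 1) < 1 := by
      rw [div_lt_one hd]; linarith
    linarith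
  · obtain ⟨c, hc0, hv, hy⟩ := h.polar hA hK hxI
    rw [h0, Real.sin_zero, mul_zero] at hy
    have hp : pp d w x = 0 := by
      have h2 : x * pp d w x = 0 := hy
      exact (mul_eq_zero.1 h2).resolve_left h1.ne'
    rw [hp, kap]
    norm_num

/-- once the energy is small the point rotates -/
theorem IsSol.rotate (h : IsSol d A T w) (hA : 1 < A) {K : ℝ → ℝ} (hK : IsAng d T w K)
    {s₀ s : ℝ} (hs₀ : 2 * d ≤ s₀) (hs₀' : 0 < s₀) (hs : s₀ ≤ s) (hsT : s ≤ T)
    (hE : EE d w s₀ < 1 / 16) : ang K s ≤ ang K s₀ - (s - s₀) / 4 := by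
  have hanti : AntitoneOn (fun r => ang K r + r / 4) (Icc s₀ s) := by
    apply antitoneOn_of_hasDerivWithinAt_nonpos (convex_Icc s₀ s)
      (((continuous_ang hK.cont).add (by fun_prop)).continuousOn) (f' := fun r => K r + 1 / 4)
    · intro r _
      exact ((hasDerivAt_ang hK.cont r).add ((hasDerivAt_id r).div_const 4)).hasDerivWithinAt
    · intro r hr
      rw [interior_Icc] at hr
      have hr0 : 0 < r := hs₀'.trans hr.1
      have hrT : r ∈ Icc 0 T := ⟨hr0.le, hr.2.le.trans hsT⟩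
      have h1 : EE d w r < 1 / 16 :=
        (h.EE_anti ⟨hs₀'.le, hr.1.le.trans hrT.2⟩ hrT hr.1.le).trans_lt hE
      have h2 := abs_v_lt h1
      have hρ := h.rho_pos hA hrT
      rw [hK.eq r hrT]
      have h3 : kap d r (vv w r) (pp d w r) = -1 - vv w r * (yy d w r ^ 2 + d * pp d w r) /
          (vv w r ^ 2 + yy d w r ^ 2) := rfl
      have h4 : pp d w r = yy d w r / r := by
        have : yy d w r = r * pp d w r := rfl
        rw [this]
        field_simp
      rw [h3, h4]
      generalize vv w r = v at *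
      generalize yy d w r = y at *
      have h5 : (d : ℝ) / r ≤ 1 / 2 := by
        rw [div_le_div_iff₀ hr0 (by norm_num)]
        linarith [hr.1]
      have h5' : (0 : ℝ) ≤ d / r := by positivity
      obtain ⟨h6, h7⟩ := abs_lt.1 h2
      have h8 : -(3 / 4 * (v ^ 2 + y ^ 2)) ≤ v * (y ^ 2 + d * (y / r)) := by
        have h9 : v * (y ^ 2 + d * (y / r)) = v * y ^ 2 + (d / r) * (v * y) := by ring
        rw [h9]
        have h10 : -(1 / 2 * y ^ 2) ≤ v * y ^ 2 := by nlinarith [sq_nonneg y]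
        have h11 : -((v ^ 2 + y ^ 2) / 4) ≤ (d / r) * (v * y) := by
          have h12 : |v * y| ≤ (v ^ 2 + y ^ 2) / 2 := by
            rw [abs_le]
            constructor <;> nlinarith [sq_nonneg (v + y), sq_nonneg (v - y)]
          have h13 : |(d / r) * (v * y)| ≤ 1 / 2 * ((v ^ 2 + y ^ 2) / 2) := by
            rw [abs_mul, abs_of_nonneg h5']
            exact mul_le_mul h5 h12 (abs_nonneg _) (by norm_num)
          have := neg_abs_le ((d / r) * (v * y))
          linarith
        nlinarith [sq_nonneg v]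
      have h9 : -(3 / 4) ≤ v * (y ^ 2 + d * (y / r)) / (v ^ 2 + y ^ 2) := by
        rw [le_div_iff₀ hρ]
        linarith
      linarith
  have := hanti ⟨le_rfl, hs⟩ ⟨hs, le_rfl⟩ hs
  simp only at this
  linarith

end

end QGB
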