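import Pool.Agent.QGB.Cut

/-!
# Classical solutions of the Dirichlet problem in a ball are weak solutions
-/

open Set Filter Topology InnerProductSpace Laplacian Metric MeasureTheory
open scoped ENNReal

namespace QGB

theorem isSolution_of_classical {N : ℕ} {x₀ : EuclideanSpace ℝ (Fin N)} {R ρ : ℝ} (hR0 : 0 < R)
    (hR : R < ρ) {u : EuclideanSpace ℝ (Fin N) → ℝ} (hu : ContDiffOn ℝ 2 u (ball x₀ ρ))
    (hb : ∀ x ∈ sphere x₀ R, u x = 0) {lam c μ h : ℝ}
    (hpde : ∀ x ∈ ball x₀ R, -(Δ u x) = lam * (c * u x) + μ * ‖gradient u x‖ ^ 2 + h) :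
    IsSolution (ball x₀ R) lam (fun _ => c) (fun _ => μ) (fun _ => h) u := by
  have hO : IsOpen (ball x₀ ρ) := isOpen_ball
  have hu1 : ContDiffOn ℝ 1 u (ball x₀ ρ) := hu.of_le (by norm_num)
  have hsub : closedBall x₀ R ⊆ ball x₀ ρ := closedBall_subset_ball hR
  have hsub' : ball x₀ R ⊆ ball x₀ ρ := ball_subset_ball hR.le
  have hK : IsCompact (closedBall x₀ R) := isCompact_closedBall x₀ R
  have huc : ContinuousOn u (ball x₀ ρ) := hu.continuousOn
  have hu' : ContinuousOn (fderiv ℝ u) (ball x₀ ρ) := hu1.continuousOn_fderiv_of_isOpen hO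
    (by norm_num)
  have hgc : ContinuousOn (gradient u) (ball x₀ ρ) :=
    (toDual ℝ (EuclideanSpace ℝ (Fin N))).symm.continuous.comp_continuousOn hu'
  set f : EuclideanSpace ℝ (Fin N) → ℝ := fun x => lam * c * u x + μ * ‖gradient u x‖ ^ 2 + h
    with hf
  have hfc : ContinuousOn f (ball x₀ ρ) := by
    have h1 := hgc.norm
    fun_prop
  obtain ⟨M₁, hM₁⟩ := hK.exists_bound_of_continuousOn (huc.mono hsub)
  obtain ⟨M₂, hM₂⟩ := hK.exists_bound_of_continuousOn (hgc.mono hsub)
  obtain ⟨M₃, hM₃⟩ := hK.exists_bound_of_continuousOn (hfc.mono hsub)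
  have hae : ∀ {P : EuclideanSpace ℝ (Fin N) → Prop}, (∀ x ∈ ball x₀ R, P x) →
      ∀ᵐ x ∂(volume.restrict (ball x₀ R)), P x :=
    fun h => (ae_restrict_mem measurableSet_ball).mono h
  refine ⟨gradient u, isH10_of_boundary hR0 hR hu1 hb,
    ⟨M₁, hae fun x hx => hM₁ x (ball_subset_closedBall hx)⟩, fun v gv hv _ => ?_⟩
  refine extend_test (C := max M₂ M₃) (G := gradient u) (f := f) isOpen_ball
    measure_ball_lt_top.ne ((hgc.mono hsub').aestronglyMeasurable measurableSet_ball)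
    ((hfc.mono hsub').aestronglyMeasurable measurableSet_ball)
    (fun x hx => (hM₂ x (ball_subset_closedBall hx)).trans (le_max_left _ _))
    (fun x hx => (hM₃ x (ball_subset_closedBall hx)).trans (le_max_right _ _)) ?_ hv
  intro φ hφ hc hs
  rw [green hR hu hφ hc hs]
  apply setIntegral_congr_fun measurableSet_ball
  intro x hx
  simp only [hf, hpde x hx]
  ring

end QGB
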