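import Pool.Agent.QGB.Def

/-!
# Classical solutions are weak solutions
-/

open Set Filter Topology InnerProductSpace Laplacian Metric MeasureTheory
open scoped ENNReal

namespace QGB

section

variable {N : ℕ}

theorem inner_gradient {N : ℕ} (u : EuclideanSpace ℝ (Fin N) → ℝ)
    (x y : EuclideanSpace ℝ (Fin N)) : inner ℝ (gradient u x) y = fderiv ℝ u x y := by
  rw [gradient, toDual_symm_apply]

theorem integrable_mul_test {O : Set (EuclideanSpace ℝ (Fin N))} (hO : IsOpen O)
    {a ψ : EuclideanSpace ℝ (Fin N) → ℝ} (ha : ContinuousOn a O) (hψ : Continuous ψ)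
    (hc : HasCompactSupport ψ) (hs : tsupport ψ ⊆ O) : Integrable (fun x => a x * ψ x) := by
  have h1 : tsupport (fun x => a x * ψ x) ⊆ tsupport ψ := tsupport_mul_subset_right
  have h2 : Continuous (fun x => a x * ψ x) :=
    ContinuousOn.continuous_of_tsupport_subset (ha.mul hψ.continuousOn) hO (h1.trans hs)
  exact h2.integrable_of_hasCompactSupport hc.mul_left

/-- Green's formula for test functions -/
theorem green {x₀ : EuclideanSpace ℝ (Fin N)} {R ρ : ℝ} (hR : R < ρ)
    {u φ : EuclideanSpace ℝ (Fin N) → ℝ} (hu : ContDiffOn ℝ 2 u (ball x₀ ρ))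
    (hφ : ContDiff ℝ 1 φ) (hc : HasCompactSupport φ) (hs : tsupport φ ⊆ ball x₀ R) :
    ∫ x in ball x₀ R, inner ℝ (gradient u x) (gradient φ x) =
      ∫ x in ball x₀ R, (-(Δ u) x) * φ x := by
  set b := EuclideanSpace.basisFun (Fin N) ℝ with hb
  have hO : IsOpen (ball x₀ ρ) := isOpen_ball
  have hsρ : tsupport φ ⊆ ball x₀ ρ := hs.trans (ball_subset_ball hR.le)
  have hu1 : ContDiffOn ℝ 1 (fderiv ℝ u) (ball x₀ ρ) :=
    hu.fderiv_of_isOpen hO (by norm_num)
  have hu2 : ContDiffOn ℝ 0 (fderiv ℝ (fderiv ℝ u)) (ball x₀ ρ) :=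
    hu1.fderiv_of_isOpen hO (by norm_num)
  have hc1 : ∀ v, ContinuousOn (fun x => fderiv ℝ u x v) (ball x₀ ρ) := fun v =>
    hu1.continuousOn.clm_apply continuousOn_const
  have hd1 : ∀ x ∈ ball x₀ ρ, DifferentiableAt ℝ (fderiv ℝ u) x := fun x hx =>
    ((hu1.contDiffAt (hO.mem_nhds hx)).differentiableAt (by norm_num))
  have hdd : ∀ v, ∀ x ∈ ball x₀ ρ, fderiv ℝ (fun x => fderiv ℝ u x v) x v =
      fderiv ℝ (fderiv ℝ u) x v v := by
    intro v x hx
    have h1 := (hd1 x hx).hasFDerivAt.clm_apply (hasFDerivAt_const v x)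
    rw [h1.fderiv]
    simp
  have hc2 : ∀ v, ContinuousOn (fun x => fderiv ℝ (fun x => fderiv ℝ u x v) x v) (ball x₀ ρ) := by
    intro v
    have h1 : ContinuousOn (fun x => fderiv ℝ (fderiv ℝ u) x v v) (ball x₀ ρ) :=
      (hu2.continuousOn.clm_apply continuousOn_const).clm_apply continuousOn_const
    exact h1.congr (hdd v)
  have hφ1 : ∀ v, Continuous (fun x => fderiv ℝ φ x v) := fun v =>
    (hφ.continuous_fderiv (by norm_num)).clm_apply continuous_const
  have hint1 : ∀ v, Integrable (fun x => fderiv ℝ u x v * fderiv ℝ φ x v) := fun v =>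
    integrable_mul_test hO (hc1 v) (hφ1 v) (hc.fderiv_apply ℝ v)
      ((tsupport_fderiv_apply_subset ℝ v).trans hsρ)
  have hint2 : ∀ v, Integrable (fun x => fderiv ℝ (fun x => fderiv ℝ u x v) x v * φ x) := fun v =>
    integrable_mul_test hO (hc2 v) hφ.continuous hc hsρ
  have hint3 : ∀ v, Integrable (fun x => fderiv ℝ u x v * φ x) := fun v =>
    integrable_mul_test hO (hc1 v) hφ.continuous hc hsρ
  have hparts : ∀ v, ∫ x, fderiv ℝ u x v * fderiv ℝ φ x v =
      -∫ x, fderiv ℝ (fun x => fderiv ℝ u x v) x v * φ x := fun v =>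
    integral_mul_fderiv_eq_neg_fderiv_mul_of_integrable (hint2 v) (hint1 v) (hint3 v)
      (fun x hx => (hd1 x (hsρ hx)).clm_apply (differentiableAt_const v))
      (fun x _ => (hφ.differentiable (by norm_num)).differentiableAt)
  have hzero : ∀ x, x ∉ ball x₀ R → φ x = 0 := fun x hx => by
    by_contra h
    exact hx (hs (subset_tsupport _ h))
  have hzero' : ∀ x, x ∉ ball x₀ R → fderiv ℝ φ x = 0 := fun x hx =>
    fderiv_of_notMem_tsupport ℝ (fun h => hx (hs h))
  -- left-hand side
  have hL : ∫ x in ball x₀ R, inner ℝ (gradient u x) (gradient φ x) =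
      ∑ i, ∫ x, fderiv ℝ u x (b i) * fderiv ℝ φ x (b i) := by
    rw [setIntegral_eq_integral_of_forall_compl_eq_zero, ← integral_finsetSum]
    · congr 1
      funext x
      rw [← b.sum_inner_mul_inner]
      refine Finset.sum_congr rfl fun i _ => ?_
      rw [inner_gradient, real_inner_comm, inner_gradient]
    · exact fun i _ => hint1 _
    · intro x hx
      rw [real_inner_comm, inner_gradient, hzero' x hx]
      simp
  have hRt : ∫ x in ball x₀ R, (-(Δ u) x) * φ x =
      ∑ i, -∫ x, fderiv ℝ (fun x => fderiv ℝ u x (b i)) x (b i) * φ x := by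
    rw [setIntegral_eq_integral_of_forall_compl_eq_zero, Finset.sum_neg_distrib,
      ← integral_finsetSum, ← integral_neg]
    · congr 1
      funext x
      by_cases hx : x ∈ ball x₀ R
      · have hx' : x ∈ ball x₀ ρ := ball_subset_ball hR.le hx
        rw [laplacian_eq_iteratedFDeriv_orthonormalBasis _ b]
        simp only [iteratedFDeriv_two_apply, Matrix.cons_val_zero, Matrix.cons_val_one]
        rw [neg_mul, Finset.sum_mul]
        congr 1
        refine Finset.sum_congr rfl fun i _ => ?_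
        rw [hdd _ x hx']
      · simp [hzero x hx]
    · exact fun i _ => hint2 _
    · intro x hx
      simp [hzero x hx]
  rw [hL, hRt]
  exact Finset.sum_congr rfl fun i _ => hparts _

/-- bounded sequences converging pointwise to zero -/
theorem tendsto_eLpNorm_zero {V : Type*} [NormedAddCommGroup V]
    {ν : Measure (EuclideanSpace ℝ (Fin N))} [IsFiniteMeasure ν]
    {F : ℕ → EuclideanSpace ℝ (Fin N) → V} {C : ℝ}
    (hm : ∀ n, AEStronglyMeasurable (F n) ν) (hb : ∀ n, ∀ᵐ x ∂ν, ‖F n x‖ ≤ C)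
    (ht : ∀ᵐ x ∂ν, Tendsto (fun n => F n x) atTop (𝓝 0)) :
    Tendsto (fun n => eLpNorm (F n) 2 ν) atTop (𝓝 0) := by
  have h1 : Tendsto (fun n => ∫⁻ x, ‖F n x‖ₑ ^ (2 : ℝ) ∂ν) atTop (𝓝 (∫⁻ _, 0 ∂ν)) := by
    apply tendsto_lintegral_of_dominated_convergence' (fun _ => ENNReal.ofReal C ^ (2 : ℝ))
    · intro n
      exact (hm n).enorm.pow_const _
    · intro n
      filter_upwards [hb n] with x hx
      apply ENNReal.rpow_le_rpow _ (by norm_num)
      rw [← ofReal_norm]
      exact ENNReal.ofReal_le_ofReal hx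
    · rw [lintegral_const]
      exact ENNReal.mul_ne_top (ENNReal.rpow_ne_top_of_nonneg (by norm_num) ENNReal.ofReal_ne_top)
        (measure_ne_top _ _)
    · filter_upwards [ht] with x hx
      have h2 : Tendsto (fun n => ‖F n x‖ₑ) atTop (𝓝 0) := by
        have := (continuous_enorm.tendsto (0 : V)).comp hx
        simpa [Function.comp_def] using this
      have h3 := ((ENNReal.continuous_rpow_const (y := (2 : ℝ))).tendsto 0).comp h2
      simpa [Function.comp_def] using h3
  rw [lintegral_zero] at h1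
  have h2 : ∀ n, eLpNorm (F n) 2 ν = (∫⁻ x, ‖F n x‖ₑ ^ (2 : ℝ) ∂ν) ^ (1 / (2 : ℝ)) := by
    intro n
    rw [eLpNorm_eq_lintegral_rpow_enorm_toReal (by norm_num) (by norm_num)]
    simp
  simp only [h2]
  have h3 := ((ENNReal.continuous_rpow_const (y := 1 / (2 : ℝ))).tendsto 0).comp h1
  simpa [Function.comp_def] using h3

/-- the identity extends from test functions to `H¹₀` -/
theorem extend_test {Ω : Set (EuclideanSpace ℝ (Fin N))} (hΩ : IsOpen Ω)
    (hfin : volume Ω ≠ ∞) {G : EuclideanSpace ℝ (Fin N) → EuclideanSpace ℝ (Fin N)}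
    {f : EuclideanSpace ℝ (Fin N) → ℝ} {C : ℝ}
    (hGm : AEStronglyMeasurable G (volume.restrict Ω))
    (hfm : AEStronglyMeasurable f (volume.restrict Ω))
    (hG : ∀ x ∈ Ω, ‖G x‖ ≤ C) (hf : ∀ x ∈ Ω, |f x| ≤ C)
    (htest : ∀ φ : EuclideanSpace ℝ (Fin N) → ℝ, ContDiff ℝ 1 φ → HasCompactSupport φ →
      tsupport φ ⊆ Ω → ∫ x in Ω, inner ℝ (G x) (gradient φ x) = ∫ x in Ω, f x * φ x)
    {v : EuclideanSpace ℝ (Fin N) → ℝ}
    {gv : EuclideanSpace ℝ (Fin N) → EuclideanSpace ℝ (Fin N)} (hv : IsH10 Ω v gv) :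
    Integrable (fun x => f x * v x) (volume.restrict Ω) ∧
      ∫ x in Ω, inner ℝ (G x) (gv x) = ∫ x in Ω, f x * v x := by
  obtain ⟨hv2, hgv2, φ, hφ, hφv, hφg⟩ := hv
  set ν := volume.restrict Ω with hν
  have hfinν : IsFiniteMeasure ν := by
    refine ⟨?_⟩
    rw [hν, Measure.restrict_apply_univ]
    exact lt_top_iff_ne_top.2 hfin
  have hae : ∀ {P : EuclideanSpace ℝ (Fin N) → Prop}, (∀ x ∈ Ω, P x) → ∀ᵐ x ∂ν, P x :=
    fun h => (ae_restrict_mem hΩ.measurableSet).mono h
  have hv1 : Integrable v ν := hv2.integrable (by norm_num)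
  have hgv1 : Integrable gv ν := hgv2.integrable (by norm_num)
  have hfv : Integrable (fun x => f x * v x) ν :=
    hv1.bdd_mul hfm (c := C) (hae hf)
  have hGgv : Integrable (fun x => (inner ℝ (G x) (gv x) : ℝ)) ν := by
    refine (hgv1.norm.const_mul C).mono' (hGm.inner hgv1.1) ?_
    filter_upwards [hae hG] with x hx
    exact (norm_inner_le_norm _ _).trans (mul_le_mul_of_nonneg_right hx (norm_nonneg _))
  refine ⟨hfv, ?_⟩
  have hφm : ∀ n, Continuous (φ n) := fun n => (hφ n).1.continuous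
  have hgφm : ∀ n, Continuous (gradient (φ n)) := by
    intro n
    have h1 := (hφ n).1.continuous_fderiv (by norm_num)
    exact (toDual ℝ (EuclideanSpace ℝ (Fin N))).symm.continuous.comp h1
  have hC0 : ∀ x ∈ Ω, 0 ≤ C := fun x hx => (norm_nonneg _).trans (hG x hx)
  have hCC : ∀ᵐ x ∂ν, (0 : ℝ) ≤ C := hae hC0
  -- from `L²` to `L¹`
  have hL1 : ∀ {V : Type} [NormedAddCommGroup V] (F : ℕ → EuclideanSpace ℝ (Fin N) → V),
      (∀ n, AEStronglyMeasurable (F n) ν) → Tendsto (fun n => eLpNorm (F n) 2 ν) atTop (𝓝 0) →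
      Tendsto (fun n => eLpNorm (F n) 1 ν) atTop (𝓝 0) := by
    intro V _ F hF hF0
    have h1 : ∀ n, eLpNorm (F n) 1 ν ≤ eLpNorm (F n) 2 ν *
        ν univ ^ (1 / (1 : ℝ≥0∞).toReal - 1 / (2 : ℝ≥0∞).toReal) := fun n =>
      eLpNorm_le_eLpNorm_mul_rpow_measure_univ (by norm_num) (hF n)
    have h2 : Tendsto (fun n => eLpNorm (F n) 2 ν *
        ν univ ^ (1 / (1 : ℝ≥0∞).toReal - 1 / (2 : ℝ≥0∞).toReal)) atTop (𝓝 0) := by
      have h3 := ENNReal.Tendsto.mul_const (b := ν univ ^ (1 / (1 : ℝ≥0∞).toReal -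
        1 / (2 : ℝ≥0∞).toReal)) hF0 (Or.inr ?_)
      · simpa using h3
      · apply ENNReal.rpow_ne_top_of_nonneg
        · norm_num
        · exact measure_ne_top _ _
    exact tendsto_of_tendsto_of_tendsto_of_le_of_le tendsto_const_nhds h2 (fun _ => zero_le) h1
  -- limit of the left-hand side
  have hlim1 : Tendsto (fun n => ∫ x, (inner ℝ (G x) (gradient (φ n) x) : ℝ) ∂ν) atTop
      (𝓝 (∫ x, (inner ℝ (G x) (gv x) : ℝ) ∂ν)) := by
    have hint : ∀ n, Integrable (fun x => (inner ℝ (G x) (gradient (φ n) x) : ℝ)) ν := by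
      intro n
      have h1 : Integrable (gradient (φ n)) ν := by
        have h2 : HasCompactSupport (gradient (φ n)) := by
          have h3 := (hφ n).2.1.fderiv (𝕜 := ℝ)
          exact h3.comp_left (map_zero (toDual ℝ (EuclideanSpace ℝ (Fin N))).symm)
        exact ((hgφm n).integrable_of_hasCompactSupport h2).mono_measure Measure.restrict_le_self
      refine (h1.norm.const_mul C).mono' (hGm.inner h1.1) ?_
      filter_upwards [hae hG] with x hx
      exact (norm_inner_le_norm _ _).trans (mul_le_mul_of_nonneg_right hx (norm_nonneg _))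
    refine tendsto_integral_of_L1' _ hGgv.1 (Eventually.of_forall hint) ?_
    have h1 := hL1 (fun n x => gradient (φ n) x - gv x)
      (fun n => (hgφm n).aestronglyMeasurable.sub hgv1.1) hφg
    have h2 : Tendsto (fun n => ENNReal.ofReal C *
        eLpNorm (fun x => gradient (φ n) x - gv x) 1 ν) atTop (𝓝 0) := by
      have h3 := ENNReal.Tendsto.const_mul (a := ENNReal.ofReal C) h1
        (Or.inr ENNReal.ofReal_ne_top)
      simpa using h3
    refine tendsto_of_tendsto_of_tendsto_of_le_of_le tendsto_const_nhds h2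
      (fun _ => zero_le) (fun n => ?_)
    apply eLpNorm_le_mul_eLpNorm_of_ae_le_mul
    filter_upwards [hae hG] with x hx
    have h4 : (inner ℝ (G x) (gradient (φ n) x) : ℝ) - inner ℝ (G x) (gv x) =
        inner ℝ (G x) (gradient (φ n) x - gv x) := by rw [inner_sub_right]
    simp only [Pi.sub_apply]
    rw [h4]
    exact (norm_inner_le_norm _ _).trans (mul_le_mul_of_nonneg_right hx (norm_nonneg _))
  -- limit of the right-hand side
  have hlim2 : Tendsto (fun n => ∫ x, f x * φ n x ∂ν) atTop (𝓝 (∫ x, f x * v x ∂ν)) := by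
    have hint : ∀ n, Integrable (fun x => f x * φ n x) ν := by
      intro n
      have h1 : Integrable (φ n) ν :=
        ((hφm n).integrable_of_hasCompactSupport (hφ n).2.1).mono_measure Measure.restrict_le_self
      exact h1.bdd_mul hfm (c := C) (hae hf)
    refine tendsto_integral_of_L1' _ hfv.1 (Eventually.of_forall hint) ?_
    have h1 := hL1 (fun n x => φ n x - v x)
      (fun n => (hφm n).aestronglyMeasurable.sub hv1.1) hφv
    have h2 : Tendsto (fun n => ENNReal.ofReal C *
        eLpNorm (fun x => φ n x - v x) 1 ν) atTop (𝓝 0) := by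
      have h3 := ENNReal.Tendsto.const_mul (a := ENNReal.ofReal C) h1
        (Or.inr ENNReal.ofReal_ne_top)
      simpa using h3
    refine tendsto_of_tendsto_of_tendsto_of_le_of_le tendsto_const_nhds h2
      (fun _ => zero_le) (fun n => ?_)
    apply eLpNorm_le_mul_eLpNorm_of_ae_le_mul
    filter_upwards [hae hf] with x hx
    simp only [Pi.sub_apply]
    rw [← mul_sub, norm_mul]
    exact mul_le_mul_of_nonneg_right hx (norm_nonneg _)
  have heq : (fun n => ∫ x, (inner ℝ (G x) (gradient (φ n) x) : ℝ) ∂ν) =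
      fun n => ∫ x, f x * φ n x ∂ν := by
    funext n
    exact htest (φ n) (hφ n).1 (hφ n).2.1 (hφ n).2.2
  rw [heq] at hlim1
  exact tendsto_nhds_unique hlim1 hlim2

end

end QGB
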